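import Pool.Agent.Lib.MP_8cd3bd_co.Main

set_option autoImplicit false

open Equiv DihedralGroup SimpleGraph

namespace Pool.Agent.Lib.MP_8cd3bd_co

theorem closure_gam {w R : ℕ} (D : Data (ZMod (4 * w)) R) (hw : 0 < w) (hR : 3 ≤ R) :
    Subgroup.closure {σ : Perm D.Γ | ∃ i : ℤ, RingStep (gam D (3 * i + 1)) σ} = ⊤ := by
  let I := {t : ℤ // 0 ≤ t ∧ t < 4 * w}
  have : Nonempty I := ⟨⟨0, le_rfl, by omega⟩⟩
  have ed : ∀ t : I, gam D (3 * t.1 + 1) =
      D.s (lt w t.1 1) * D.s (lt w t.1 2) * D.s (lt w t.1 3) := by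
    rintro ⟨t, h1, h2⟩
    have a1 : (3 * t + 1) % 3 = 1 := by omega
    have a2 : (3 * t + 1) / 3 = t := by omega
    have a3 : t % (8 * w) = t := Int.emod_eq_of_lt h1 (by omega)
    simp [gam, lets, base, a2, a3, h2, mul_assoc]
  have ec : ∀ t : I, gam D (3 * (t.1 + 4 * w) + 1) = D.s (lt w t.1 1) * D.s (lt w t.1 2) := by
    rintro ⟨t, h1, h2⟩
    have a1 : (3 * (t + 4 * w) + 1) % 3 = 1 := by omega
    have a2 : (3 * (t + 4 * w) + 1) / 3 = t + 4 * w := by omega
    have a3 : (t + 4 * w) % (8 * w) = t + 4 * w := Int.emod_eq_of_lt (by omega) (by omega)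
    have a4 : ∀ τ, lt w (t + 4 * w) τ = lt w t τ := by
      intro τ
      unfold lt
      rw [ZMod.intCast_eq_intCast_iff_dvd_sub]
      exact ⟨-1, by push_cast; ring⟩
    have a5 : ¬ t + 4 * w < 4 * w := by omega
    simp only [gam, lets, base, a1, a2, a3, a4, a5]
    simp
  have n12 : ∀ t, lt w t 2 ≠ lt w t 1 := fun t =>
    lt_ne w hw t (by omega) (by omega) (by omega) (by omega) (by omega)
  have n13 : ∀ t, lt w t 3 ≠ lt w t 1 := fun t =>
    lt_ne w hw t (by omega) (by omega) (by omega) (by omega) (by omega)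
  have φc : ∀ t : I, D.φ (lt w t.1 1) (gam D (3 * (t.1 + 4 * w) + 1)) = r (-1) := by
    intro t; rw [ec]; simp [D.φ_s, n12]
  have φd : ∀ t : I, D.φ (lt w t.1 1) (gam D (3 * t.1 + 1)) = sr 1 := by
    intro t; rw [ed]; simp [D.φ_s, n12, n13]
  have hsq : (sr 1 : DihedralGroup D.o) ^ (2 : ℤ) = 1 := by
    rw [zpow_two, sr_mul_self]
  rw [eq_top_iff, ← closure_ringStep (fun t : I => gam D (3 * (t.1 + 4 * w) + 1))
    (fun t : I => gam D (3 * t.1 + 1)) ?_ (fun t => gam_ne_one D hw hR _) ?_ ?_]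
  · refine Subgroup.closure_mono ?_
    rintro σ ⟨t, h | h⟩ <;> exact ⟨_, h⟩
  · rw [eq_top_iff, ← D.gen, Subgroup.closure_le]
    rintro _ ⟨l, rfl⟩
    have : NeZero (4 * w) := ⟨by omega⟩
    obtain ⟨t, rfl⟩ : ∃ t : I, l = lt w t.1 3 := by
      refine ⟨⟨((l - ((3 * w : ℤ) : ZMod (4 * w))).val : ℤ), by omega, ?_⟩, ?_⟩
      · exact_mod_cast ZMod.val_lt _
      · simp [lt]
    have e : D.s (lt w t.1 3) = (gam D (3 * (t.1 + 4 * w) + 1))⁻¹ * gam D (3 * t.1 + 1) := by
      rw [ec, ed]; group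
    rw [SetLike.mem_coe, e]
    exact Subgroup.mul_mem _ (Subgroup.inv_mem _ (Subgroup.subset_closure (Or.inl ⟨t, rfl⟩)))
      (Subgroup.subset_closure (Or.inr ⟨t, rfl⟩))
  · intro t n h
    have := congrArg (D.φ (lt w t.1 1)) h
    rw [map_pow, φd, map_one] at this
    have h2 := orderOf_dvd_of_pow_eq_one this
    rw [orderOf_sr] at h2
    exact even_iff_two_dvd.2 h2
  · rintro t x ⟨a, rfl⟩ ⟨b, h⟩
    dsimp only at h ⊢
    have h1 := congrArg (D.φ (lt w t.1 1)) h
    rw [map_zpow, map_zpow, φc, φd, r_zpow] at h1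
    have h2 : ((a : ℤ) : ZMod D.o) = 0 := by
      rcases Int.even_or_odd' b with ⟨c, rfl | rfl⟩
      · rw [zpow_mul, hsq, one_zpow, DihedralGroup.one_def] at h1
        have := r.inj h1
        linear_combination this
      · rw [zpow_add, zpow_mul, hsq, one_zpow, one_mul, zpow_one] at h1
        exact absurd h1 (by simp)
    obtain ⟨c, rfl⟩ := (ZMod.intCast_zmod_eq_zero_iff_dvd _ _).1 h2
    rw [zpow_mul, zpow_natCast, D.pow_o, one_zpow]

theorem exists_setup (k : ℕ) : ∃ S : Setup k, k ≤ S.N := by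
  obtain ⟨B, hB⟩ : ∃ B : ℕ, B = 32 * k + 52 := ⟨_, rfl⟩
  have : NeZero (4 * (4 * k + 7)) := ⟨by omega⟩
  obtain ⟨D⟩ := exists_data (ZMod (4 * (4 * k + 7))) (3 * ((3 * B + 1) * B + 1 + k + B))
  obtain ⟨M, hM⟩ := exists_bounded_lists _ (closure_gam D (by omega) (by omega))
  refine ⟨{ w := 4 * k + 7, R := _, N := 24 * (4 * k + 7) * (M + 1), hm := 2 * k + 3, B := B
            M := M, D := D, k0 := by omega, hw := by push_cast; omega, hk := le_rfl
            hB := by omega, hR := by push_cast; exact le_rfl, hN := by push_cast; ring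
            M0 := by omega, real := fun π => ?_ }, ?_⟩
  · obtain ⟨L, h1, h2, h3⟩ := hM π
    exact ⟨L, by exact_mod_cast h1, h2, h3⟩
  · show k ≤ 24 * (4 * k + 7) * (M + 1)
    nlinarith

theorem Setup.path_on_ham {k : ℤ} (S : Setup k) {u v : S.V} (p : S.T.G.Walk u v) (hp : p.IsPath)
    (hl : (p.length : ℤ) ≤ k) :
    ∃ c : S.T.G.Walk u u, c.IsHamiltonianCycle ∧ ∀ e ∈ p.edges, e ∈ c.edges := by
  classical
  let σ : ℕ → ℤ := fun i => if p.getVert (i + 1) = S.T.nx (p.getVert i) then 1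
    else if p.getVert i = S.T.nx (p.getVert (i + 1)) then -1 else 0
  obtain ⟨J, J0, hJ⟩ : ∃ J : ℕ → ℤ, J 0 = u.2.val ∧
      ∀ i, J (i + 1) = if σ i = 0 then bar (J i) else J i + σ i :=
    ⟨fun i => Nat.rec (u.2.val : ℤ) (fun i x => if σ i = 0 then bar x else x + σ i) i, rfl,
      fun i => rfl⟩
  have hσ : ∀ i, i < p.length → (σ i = 0 ∧ p.getVert (i + 1) = S.T.ch (p.getVert i)) ∨
      (σ i = 1 ∧ p.getVert (i + 1) = S.T.nx (p.getVert i)) ∨
      (σ i = -1 ∧ p.getVert i = S.T.nx (p.getVert (i + 1))) := by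
    intro i hi
    have h := p.adj_getVert_succ hi
    simp only [σ]
    split_ifs with h1 h2
    · exact Or.inr (Or.inl ⟨rfl, h1⟩)
    · exact Or.inr (Or.inr ⟨rfl, h2⟩)
    · rcases h with h | h | h
      · exact absurd h h1
      · exact absurd h h2
      · exact Or.inl ⟨rfl, h⟩
  have hstep : ∀ i, i < p.length → (p.getVert i).2 = ((J i : ℤ) : ZMod S.N) →
      (p.getVert (i + 1)).2 = ((J (i + 1) : ℤ) : ZMod S.N) ∧
      ((σ i = 0 ∧ (p.getVert (i + 1)).1 = (p.getVert i).1 * gam S.D (J i) ∧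
        J (i + 1) = bar (J i)) ∨
      ((σ i = 1 ∨ σ i = -1) ∧ (p.getVert (i + 1)).1 = (p.getVert i).1 ∧
        J (i + 1) = J i + σ i)) := by
    intro i hi h
    have e : p.getVert i = ((p.getVert i).1, ((J i : ℤ) : ZMod S.N)) := Prod.ext rfl h
    rcases hσ i hi with ⟨h1, h2⟩ | ⟨h1, h2⟩ | ⟨h1, h2⟩
    · rw [e, S.T_ch] at h2
      have : J (i + 1) = bar (J i) := by rw [hJ, if_pos h1]
      exact ⟨by rw [h2, this], Or.inl ⟨h1, by rw [h2], this⟩⟩
    · rw [e, S.nx_cast] at h2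
      have : J (i + 1) = J i + σ i := by rw [hJ, if_neg (by omega)]
      exact ⟨by rw [h2, this, h1], Or.inr ⟨Or.inl h1, by rw [h2], this⟩⟩
    · rw [← Equiv.symm_apply_eq, e, S.nx_symm_cast] at h2
      have : J (i + 1) = J i + σ i := by rw [hJ, if_neg (by omega)]
      exact ⟨by rw [← h2, this, h1]; rfl, Or.inr ⟨Or.inr h1, by rw [← h2], this⟩⟩
  have hrep : ∀ i, i ≤ p.length → (p.getVert i).2 = ((J i : ℤ) : ZMod S.N) ∧ |J i - J 0| ≤ i := by
    intro i
    induction i with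
    | zero => intro _; simp [J0]
    | succ i ih =>
      intro h
      have h1 := ih (by omega)
      have h2 := hstep i h h1.1
      refine ⟨h2.1, ?_⟩
      have h3 := bar_cases (J i)
      have h4 := h1.2
      rw [abs_le] at h4 ⊢
      push_cast
      omega
  let W : Wk S.D (J 0 / 3) k :=
    { n := p.length, a := fun i => (p.getVert i).1, J := J, σ := σ, hn := hl
      st := fun i hi => (hstep i hi (hrep i hi.le).1).2
      nb := by
        intro i hi e
        have hne : p.getVert (i + 1 + 1) ≠ p.getVert i := fun h => by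
          have := hp.getVert_injOn (by simp; omega) (by simp; omega) h
          omega
        apply hne
        rcases hσ i (by omega) with ⟨h1, h2⟩ | ⟨h1, h2⟩ | ⟨h1, h2⟩ <;>
        rcases hσ (i + 1) hi with ⟨h3, h4⟩ | ⟨h3, h4⟩ | ⟨h3, h4⟩ <;> try omega
        · rw [h4, h2, S.T.ch_ch]
        · exact S.T.nx.injective (h4.symm.trans h2)
        · exact h4.trans h2.symm
      rng := by
        intro i hi
        have := (hrep i hi).2
        rw [abs_le] at this ⊢
        omega }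
  obtain ⟨C, hC, hc, hadj⟩ := S.main W
  obtain ⟨c, h1, h2⟩ := S.T.F_ham hC hc u
  refine ⟨c, h1, fun e he => ?_⟩
  induction e using Sym2.ind with
  | _ x y =>
    obtain ⟨i, e, hi⟩ := p.toSubgraph_adj_iff.1 (Walk.adj_toSubgraph_iff_mem_edges.2 he)
    rw [← e]
    apply h2
    have := hadj i hi
    rwa [show (W.a i, ((W.J i : ℤ) : ZMod S.N)) = p.getVert i from
        Prod.ext rfl (hrep i hi.le).1.symm,
      show (W.a (i + 1), ((W.J (i + 1) : ℤ) : ZMod S.N)) = p.getVert (i + 1) from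
        Prod.ext rfl (hrep (i + 1) hi).1.symm] at this

theorem exists_cubic (k : ℕ) : ∃ (V : Type) (_ : Fintype V) (_ : DecidableEq V)
    (G : SimpleGraph V) (_ : DecidableRel G.Adj), G.IsRegularOfDegree 3 ∧ G.IsHamiltonian ∧
      k ≤ Fintype.card V ∧ ∀ (u v : V) (p : G.Walk u v), p.IsPath → p.length ≤ k →
        ∃ c : G.Walk u u, c.IsHamiltonianCycle ∧ ∀ e ∈ p.edges, e ∈ c.edges := by
  classical
  obtain ⟨S, hS⟩ := exists_setup k
  refine ⟨S.V, inferInstance, inferInstance, S.T.G, inferInstance, S.T.G_degree, fun _ => ?_, ?_,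
    fun u v p hp hl => S.path_on_ham p hp (by exact_mod_cast hl)⟩
  · obtain ⟨c, hc, -⟩ := S.path_on_ham (Walk.nil : S.T.G.Walk (1, 0) (1, 0)) (by simp) (by simp)
    exact ⟨_, c, hc⟩
  · rw [Fintype.card_prod, ZMod.card]
    exact hS.trans (Nat.le_mul_of_pos_left _ Fintype.card_pos)

end Pool.Agent.Lib.MP_8cd3bd_co
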