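import Pool.Agent.Lib.MP_8cd3bd_co.Line

set_option autoImplicit false

namespace Pool.Agent.Lib.MP_8cd3bd_co

variable {w R : ℕ} {D : Data (ZMod (4 * w)) R} {i0 hm k B : ℤ}

/-- A non-backtracking walk in integer layer coordinates. -/
structure Wk (D : Data (ZMod (4 * w)) R) (i0 k : ℤ) where
  n : ℕ
  a : ℕ → D.Γ
  J : ℕ → ℤ
  σ : ℕ → ℤ
  hn : (n : ℤ) ≤ k
  st : ∀ i, i < n → (σ i = 0 ∧ a (i + 1) = a i * gam D (J i) ∧ J (i + 1) = bar (J i)) ∨
    ((σ i = 1 ∨ σ i = -1) ∧ a (i + 1) = a i ∧ J (i + 1) = J i + σ i)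
  nb : ∀ i, i + 1 < n → σ (i + 1) ≠ -σ i
  rng : ∀ i, i ≤ n → |J i / 3 - i0| ≤ k

def mv (d x e y : ℤ) : Prop := (d = 1 ∧ y = x + e) ∨ (d = -1 ∧ y = x - e)

namespace Wk

variable (W : Wk D i0 k)

def dm (i : ℕ) : ℤ := if i = 0 then 1 else W.σ (i - 1)

def dp (i : ℕ) : ℤ := if i + 1 < W.n then -W.σ (i + 1) else 1

theorem σ_cases {i : ℕ} (hi : i < W.n) : W.σ i = 0 ∨ W.σ i = 1 ∨ W.σ i = -1 := by
  rcases W.st i hi with h | h
  · exact Or.inl h.1
  · exact Or.inr h.1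

theorem dm_pm {i : ℕ} (hi : i < W.n) (h : W.σ i = 0) : W.dm i = 1 ∨ W.dm i = -1 := by
  unfold dm
  split_ifs with h0
  · simp
  · obtain ⟨j, rfl⟩ : ∃ j, i = j + 1 := ⟨i - 1, by omega⟩
    have h1 := W.nb j hi
    have h2 := W.σ_cases (i := j) (by omega)
    simp only [Nat.add_sub_cancel]
    omega

theorem dp_pm {i : ℕ} (h : W.σ i = 0) : W.dp i = 1 ∨ W.dp i = -1 := by
  unfold dp
  split_ifs with h0
  · have h1 := W.nb i h0
    have h2 := W.σ_cases h0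
    omega
  · simp

theorem dp_next {i : ℕ} (hi : i + 1 < W.n) : W.σ (i + 1) = -W.dp i := by
  unfold dp; rw [if_pos hi]; ring

theorem chord {i : ℕ} (hi : i < W.n) (h : W.σ i = 0) :
    W.a (i + 1) = W.a i * gam D (W.J i) ∧ W.J (i + 1) = bar (W.J i) := by
  rcases W.st i hi with h1 | h1
  · exact h1.2
  · omega

theorem tube {i : ℕ} (hi : i < W.n) (h : W.σ i ≠ 0) :
    (W.σ i = 1 ∨ W.σ i = -1) ∧ W.a (i + 1) = W.a i ∧ W.J (i + 1) = W.J i + W.σ i := by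
  rcases W.st i hi with h1 | h1
  · exact absurd h1.1 h
  · exact h1

def Tail (u : ℕ) (x d e : ℤ) : Prop :=
  0 ≤ e ∧ mv d x e (W.J u) ∧ (u < W.n → W.σ u = d ∨ (W.σ u = 0 ∧ 1 ≤ e ∧ W.dm u = d))

theorem Tail.tube {W : Wk D i0 k} {u : ℕ} {x d e : ℤ} (h : W.Tail u x d e) (hu : u < W.n)
    (h0 : W.σ u ≠ 0) : W.Tail (u + 1) x d (e + 1) := by
  obtain ⟨h1, h2, h3⟩ := h
  have h4 := h3 hu
  have h5 := W.tube hu h0
  unfold mv at h2
  refine ⟨by omega, by unfold mv; omega, fun h6 => ?_⟩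
  have h7 := W.nb u h6
  have h8 := W.σ_cases h6
  have h9 : W.dm (u + 1) = W.σ u := by simp [dm]
  omega

theorem tail_chord {u : ℕ} (h0 : W.σ u = 0) : W.Tail (u + 1) (W.J (u + 1)) (-W.dp u) 0 := by
  have := W.dp_pm h0
  exact ⟨le_rfl, by unfold mv; omega, fun h => Or.inl (W.dp_next h)⟩

theorem fwd (hk : k ≤ hm) {u0 : ℕ} {d : ℤ} (hd : d = 1 ∨ d = -1) (h0 : u0 < W.n → W.σ u0 = d) :
    ∀ u, u0 ≤ u → u ≤ W.n → (W.a u = W.a u0 ∧ ∃ e, W.Tail u (W.J u0) d e) ∨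
      ∃ f e0 x d' e, 1 ≤ e0 ∧ mv d (W.J u0) e0 f ∧ RP D i0 hm (W.a u0) f x (W.a u) u ∧
        W.Tail u x d' e := by
  intro u hu
  induction u, hu using Nat.le_induction with
  | base =>
    intro _
    exact Or.inl ⟨rfl, 0, le_rfl, by unfold mv; omega, fun h => Or.inl (h0 h)⟩
  | succ u hu ih =>
    intro h1
    have h2 : u < W.n := h1
    by_cases hs : W.σ u = 0
    · have hc := W.chord h2 hs
      have hr := RP.single (D := D) (W.a u) (W.J u) ((W.rng u h2.le).trans hk)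
      rw [← hc.1, ← hc.2] at hr
      right
      rcases ih h2.le with ⟨e1, e, t1, t2, t3⟩ | ⟨f, e0, x, d', e, a1, a2, a3, t1, t2, t3⟩
      · have := t3 h2
        refine ⟨W.J u, e, _, _, 0, by omega, t2, ?_, W.tail_chord hs⟩
        rw [← e1]
        exact hr.mono (by push_cast; omega)
      · have := t3 h2
        unfold mv at t2
        refine ⟨f, e0, _, _, 0, a1, a2, ?_, W.tail_chord hs⟩
        exact (a3.trans hr (by omega)).mono (by push_cast; omega)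
    · have ht := W.tube h2 hs
      rcases ih h2.le with ⟨e1, e, t⟩ | ⟨f, e0, x, d', e, a1, a2, a3, t⟩
      · exact Or.inl ⟨ht.2.1.trans e1, _, t.tube h2 hs⟩
      · refine Or.inr ⟨f, e0, x, d', _, a1, a2, ?_, t.tube h2 hs⟩
        rw [ht.2.1]
        exact a3.mono (by push_cast; omega)

theorem toChord (hk : k ≤ hm) {u0 : ℕ} {d : ℤ} (hd : d = 1 ∨ d = -1)
    (h0 : u0 < W.n → W.σ u0 = d) {i : ℕ} (h1 : u0 ≤ i) (h2 : i < W.n) (hs : W.σ i = 0) :
    (W.a i = W.a u0 ∧ W.dm i = d ∧ ∃ e, 1 ≤ e ∧ mv d (W.J u0) e (W.J i)) ∨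
      ∃ f e0 x, 1 ≤ e0 ∧ mv d (W.J u0) e0 f ∧ RP D i0 hm (W.a u0) f x (W.a i) k ∧
        x ≠ W.J i ∧ x ≠ W.J i + W.dm i := by
  have := W.hn
  rcases W.fwd hk hd h0 i h1 h2.le with ⟨e1, e, t1, t2, t3⟩ |
      ⟨f, e0, x, d', e, a1, a2, a3, t1, t2, t3⟩
  · have := t3 h2
    exact Or.inl ⟨e1, by omega, e, by omega, t2⟩
  · have := t3 h2
    unfold mv at t2
    exact Or.inr ⟨f, e0, x, a1, a2, a3.mono (by omega), by omega, by omega⟩

theorem toTube (hk : k ≤ hm) {u0 : ℕ} {d : ℤ} (hd : d = 1 ∨ d = -1)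
    (h0 : u0 < W.n → W.σ u0 = d) {u : ℕ} (h1 : u0 ≤ u) (h2 : u < W.n) (hs : W.σ u ≠ 0) :
    (W.a u = W.a u0 ∧ W.σ u = d ∧ ∃ e, 0 ≤ e ∧ mv d (W.J u0) e (W.J u)) ∨
      ∃ f e0 x, 1 ≤ e0 ∧ mv d (W.J u0) e0 f ∧ RP D i0 hm (W.a u0) f x (W.a u) k := by
  have := W.hn
  rcases W.fwd hk hd h0 u h1 h2.le with ⟨e1, e, t1, t2, t3⟩ |
      ⟨f, e0, x, d', e, a1, a2, a3, t1, t2, t3⟩
  · have := t3 h2
    exact Or.inl ⟨e1, by omega, e, t1, t2⟩
  · exact Or.inr ⟨f, e0, x, a1, a2, a3.mono (by omega)⟩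

theorem small_a (hw : 2 * hm < w) {β : ℤ} (h1 : k < |β - i0|) (h2 : |β - i0| ≤ hm) {u v : ℕ}
    (hu : u ≤ W.n) (hv : v ≤ W.n) : Small D (lt w β 0) ((W.a u)⁻¹ * W.a v) 0 := by
  have key : ∀ u, u ≤ W.n → Small D (lt w β 0) ((W.a 0)⁻¹ * W.a u) 0 := by
    intro u
    induction u with
    | zero => intro _; simpa using Small.one _
    | succ u ih =>
      intro h
      have h3 := W.rng u (by omega)
      rcases W.st u h with e | e
      · rw [e.2.1, ← mul_assoc]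
        have := (ih (by omega)).mul (small_gam0 (j := W.J u) hw (by omega) h2 (fun e => by
          rw [e, show 3 * β / 3 = β by omega] at h3; omega))
        simpa using this
      · rw [e.2.1]; exact ih (by omega)
  have := (key u hu).inv.mul (key v hv)
  simpa [mul_assoc] using this

/-- `l` is a line through the chord step `i` that leaves on the sides the walk does not use. -/
structure IsL (i : ℕ) (l : Line D i0 (k + 3 + i) B) : Prop where
  hi : i < W.n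
  hs : W.σ i = 0
  z0 : l.z 0 = W.a i
  ω0 : l.ω 0 = W.J i
  ω1 : l.ω 1 = W.J (i + 1) + W.dp i
  ωm : bar (l.ω (-1)) = W.J i + W.dm i

theorem exists_isL (hw : 2 * hm < w) (hk : 2 * k + 3 ≤ hm) (hB : 16 * hm + 4 ≤ B)
    (hR : 6 * B ≤ R) {i : ℕ} (hi : i < W.n) (hs : W.σ i = 0) :
    ∃ l : Line D i0 (k + 3 + i) B, W.IsL i l := by
  have h1 := W.hn
  have h2 := W.rng i hi.le
  have h3 := W.rng (i + 1) hi
  have h4 := W.dm_pm hi hs
  have h5 := W.dp_pm hs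
  have h6 := (W.chord hi hs).2
  rw [abs_le] at h2 h3
  obtain ⟨l, e1, e2, e3, e4⟩ := exists_line (D := D) (i0 := i0) hw (W.J i) (W.J (i + 1) + W.dp i)
    (W.J i + W.dm i) (k + 3 + i) B (by omega) (by rw [abs_lt]; omega) (by rw [abs_lt]; omega)
    (by rw [abs_lt]; omega) (by unfold Alt; omega) (by omega) hB hR (W.a i)
  exact ⟨l, hi, hs, e1, e2, e3, e4⟩

end Wk

/-- Left end of the cut made by a line at index `n`. -/
def Line.cp {h : ℤ} (l : Line D i0 h B) (n : ℤ) : ℤ := min (bar (l.ω (n - 1))) (l.ω n)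

theorem Line.alt' {h : ℤ} (l : Line D i0 h B) (n : ℤ) :
    l.ω n = bar (l.ω (n - 1)) + 1 ∨ l.ω n = bar (l.ω (n - 1)) - 1 := by
  have := l.alt (n - 1)
  rwa [sub_add_cancel] at this

namespace Wk

variable {W : Wk D i0 k}

theorem IsL.z1 {i : ℕ} {l : Line D i0 (k + 3 + i) B} (h : W.IsL i l) : l.z 1 = W.a (i + 1) := by
  have := l.step 0
  rw [zero_add, h.z0, h.ω0] at this
  rw [this, (W.chord h.hi h.hs).1]

theorem IsL.to1 {i : ℕ} {l : Line D i0 (k + 3 + i) B} (h : W.IsL i l) (hk : 2 * k + 3 ≤ hm)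
    (n : ℤ) : (n = 1) ∨ ∃ f x, RP D i0 hm (l.z n) x f (W.a (i + 1)) (|n| + 1) ∧
      (f = W.J (i + 1) ∨ f = W.J (i + 1) + W.dp i) := by
  have h1 := W.hn
  have h2 := h.hi
  rcases rp_from (hm := hm) l.step l.alt (fun n => (l.rng n).trans (by omega)) 1 n with
    e | ⟨f, x, e1, e2⟩
  · exact Or.inl e
  · refine Or.inr ⟨f, x, ?_, ?_⟩
    · rw [← h.z1]
      exact e1.symm.mono (abs_sub n 1)
    · rw [h.ω1, sub_self, h.ω0, ← (W.chord h.hi h.hs).2] at e2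
      exact e2.symm

theorem IsL.from0 {i : ℕ} {l : Line D i0 (k + 3 + i) B} (h : W.IsL i l) (hk : 2 * k + 3 ≤ hm)
    (n : ℤ) : (n = 0) ∨ ∃ f x, RP D i0 hm (W.a i) f x (l.z n) |n| ∧
      (f = W.J i ∨ f = W.J i + W.dm i) := by
  have h1 := W.hn
  have h2 := h.hi
  rcases rp_from (hm := hm) l.step l.alt (fun n => (l.rng n).trans (by omega)) 0 n with
    e | ⟨f, x, e1, e2⟩
  · exact Or.inl e
  · refine Or.inr ⟨f, x, ?_, ?_⟩
    · rw [← h.z0]
      simpa using e1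
    · rwa [h.ω0, zero_sub, h.ωm] at e2

theorem IsL.cp0 {i : ℕ} {l : Line D i0 (k + 3 + i) B} (h : W.IsL i l) :
    l.cp 0 = min (W.J i + W.dm i) (W.J i) := by
  unfold Line.cp; rw [zero_sub, h.ωm, h.ω0]

theorem IsL.cp1 {i : ℕ} {l : Line D i0 (k + 3 + i) B} (h : W.IsL i l) :
    l.cp 1 = min (W.J (i + 1)) (W.J (i + 1) + W.dp i) := by
  unfold Line.cp; rw [sub_self, h.ω0, h.ω1, (W.chord h.hi h.hs).2]

theorem IsL.pair (hw : 2 * hm < w) (hk : 2 * k + 3 ≤ hm)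
    (hR : 3 * ((3 * B + 1) * B + 1 + k + B) ≤ R) {i i' : ℕ} {l : Line D i0 (k + 3 + i) B}
    {l' : Line D i0 (k + 3 + i') B} (h : W.IsL i l) (h' : W.IsL i' l') (hii : i < i')
    {n n' : ℤ} (e : l.z n = l'.z n') :
    l'.z n' = W.a i' ∧ l.cp n + 1 ≠ l'.cp n' ∧ l'.cp n' + 1 ≠ l.cp n := by
  have h1 := W.hn
  have h2 := h.hi
  have h3 := h'.hi
  have hβ := l.hβ
  have hβ' := l'.hβ
  have s1 : Small D (lt w l'.β 0) ((l'.z 0)⁻¹ * l'.z n') 0 := by
    have a1 := W.small_a hw (β := l'.β) (by omega) (by omega) h3.le h2.le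
    have a2 := small_abs l.step (lt w l'.β 0) 0 n (fun t _ => by
      have := l.rng t
      exact small_gam0 (i0 := i0) hw (by omega) (by omega) (fun e => by
        rw [e, show 3 * l'.β / 3 = l'.β by omega] at this; omega))
    have := a1.mul a2
    rw [h.z0, e, ← h'.z0] at this
    simpa [mul_assoc] using this
  obtain ⟨m', b1, b2, b3, b4⟩ := l'.near n' 0 s1
  have s2 : Small D (lt w l.β 0) ((l.z 0)⁻¹ * l.z n) (3 * B) := by
    have a1 := W.small_a hw (β := l.β) (by omega) (by omega) h2.le h3.le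
    have a2 := small_abs l'.step (lt w l.β 0) 3 m' (fun t _ => small_gam _ _)
    have := a1.mul a2
    rw [h'.z0, b2, ← e, ← h.z0] at this
    refine Small.mono (by simpa [mul_assoc] using this) (by omega : 3 * |m'| ≤ 3 * B)
  obtain ⟨m, c1, c2, c3, c4⟩ := l.near n _ s2
  have e' : l.z m = l'.z m' := by rw [c2, b2, e]
  have cpm : l.cp n = l.cp m := by unfold Line.cp; rw [c3, c4]
  have cpm' : l'.cp n' = l'.cp m' := by unfold Line.cp; rw [b3, b4]
  have hd := W.dp_pm h.hs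
  have p1 := abs_nonneg m
  have p2 := abs_nonneg m'
  rw [cpm, cpm', ← b2]
  rcases h.to1 hk m with r1 | ⟨f1, x1, r1, q1⟩ <;>
  rcases W.toChord (hm := hm) (by omega) (u0 := i + 1) (d := -W.dp i) (by omega) W.dp_next hii h3
    h'.hs with ⟨r2, q2, e2, q3, q4⟩ | ⟨f2, e2, x2, q2, q3, r2, q4, q5⟩ <;>
  rcases h'.from0 hk m' with r3 | ⟨f3, x3, r3, q6⟩
  · subst r1 r3
    rw [h.cp1, h'.cp0, h'.z0]
    unfold mv at q4
    refine ⟨rfl, ?_, ?_⟩ <;> omega
  · rw [← e', r1, h.z1, r2] at r3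
    exact absurd rfl (r3.ne hw (by omega))
  · rw [← h.z1, ← r1, e', r3, h'.z0] at r2
    exact absurd rfl (r2.ne hw (by omega))
  · have := r2.trans r3 (by omega)
    rw [← e', r1, h.z1] at this
    exact absurd rfl (this.ne hw (by omega))
  · rw [e', r3, h'.z0, r2] at r1
    exact absurd rfl (r1.ne hw (by omega))
  · rw [r2] at r3
    unfold mv at q4
    exact absurd e' ((r1.trans r3 (by omega)).ne hw (by omega))
  · unfold mv at q3
    have := r1.trans r2 (by omega)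
    rw [e', r3, h'.z0] at this
    exact absurd rfl (this.ne hw (by omega))
  · unfold mv at q3
    exact absurd e' (((r1.trans r2 (by omega)).trans r3 (by omega)).ne hw (by omega))

theorem IsL.tube (hw : 2 * hm < w) (hk : 2 * k + 3 ≤ hm) (hB : 0 ≤ B)
    (hR : 3 * ((3 * B + 1) * B + 1 + k + B) ≤ R) {i u : ℕ} {l : Line D i0 (k + 3 + i) B}
    (h : W.IsL i l) (hu : u < W.n) (hs : W.σ u ≠ 0) {n : ℤ} (e : l.z n = W.a u) :
    l.cp n ≠ min (W.J u) (W.J (u + 1)) := by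
  have h1 := W.hn
  have h2 := h.hi
  have hβ := l.hβ
  have hBB : 0 ≤ (3 * B + 1) * B := by positivity
  have s1 : Small D (lt w l.β 0) ((l.z 0)⁻¹ * l.z n) 0 := by
    rw [h.z0, e]
    exact W.small_a hw (β := l.β) (by omega) (by omega) h2.le hu.le
  obtain ⟨m, c1, c2, c3, c4⟩ := l.near n _ s1
  have e' : l.z m = W.a u := by rw [c2, e]
  have cpm : l.cp n = l.cp m := by unfold Line.cp; rw [c3, c4]
  have hd := W.dp_pm h.hs
  have ht := W.tube hu hs
  have p1 := abs_nonneg m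
  rw [cpm]
  rcases lt_trichotomy i u with hiu | hiu | hiu
  · rcases h.to1 hk m with r1 | ⟨f1, x1, r1, q1⟩ <;>
    rcases W.toTube (hm := hm) (by omega) (u0 := i + 1) (d := -W.dp i) (by omega) W.dp_next hiu hu
      hs with ⟨r2, q2, e2, q3, q4⟩ | ⟨f2, e2, x2, q2, q3, r2⟩
    · subst r1
      rw [h.cp1]
      unfold mv at q4
      omega
    · rw [← e', r1, h.z1] at r2
      exact absurd rfl (r2.ne hw (by omega))
    · rw [e', r2] at r1
      exact absurd rfl (r1.ne hw (by omega))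
    · unfold mv at q3
      exact absurd e' ((r1.trans r2 (by omega)).ne hw (by omega))
  · exact absurd (hiu ▸ h.hs) hs
  · rcases W.toChord (hm := hm) (by omega) (u0 := u) (d := W.σ u) ht.1 (fun _ => rfl) hiu.le h2
      h.hs with ⟨r2, q2, e2, q3, q4⟩ | ⟨f2, e2, x2, q2, q3, r2, q4, q5⟩ <;>
    rcases h.from0 hk m with r3 | ⟨f3, x3, r3, q6⟩
    · subst r3
      rw [h.cp0]
      unfold mv at q4
      omega
    · rw [e', r2] at r3
      exact absurd rfl (r3.ne hw (by omega))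
    · rw [← e', r3, h.z0] at r2
      exact absurd rfl (r2.ne hw (by omega))
    · exact absurd e'.symm ((r2.trans r3 (by omega)).ne hw (by omega))

end Wk

end Pool.Agent.Lib.MP_8cd3bd_co
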