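import Mathlib

set_option autoImplicit false

open SimpleGraph

namespace Pool.Agent.Lib.MP_8cd3bd_co

theorem merge_rel {V : Type} [Finite V] {F : SimpleGraph V} (hF : F.IsCycles)
    (D : Set (Sym2 V))
    (hD : ∀ x y x' y', s(x, y) ∈ D → s(x', y') ∈ D → F.Reachable x x' → s(x, y) = s(x', y'))
    (Rel : V → V → Prop) (hE : Equivalence Rel)
    (h : ∀ x y, F.Adj x y → s(x, y) ∉ D → Rel x y) {x y : V} (hxy : F.Reachable x y) :
    Rel x y := by
  have key : ∀ x y, F.Adj x y → Rel x y := by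
    intro x y hadj
    by_cases hd : s(x, y) ∈ D
    · obtain ⟨p⟩ := hF.reachable_deleteEdges hadj
      have : ∀ (a b : V) (p : (F.deleteEdges {s(x, y)}).Walk a b), F.Reachable x a → Rel a b := by
        intro a b p
        induction p with
        | nil => intro _; exact hE.refl _
        | @cons a a' b hab p ih =>
          intro hxa
          rw [SimpleGraph.deleteEdges_adj] at hab
          have h1 : s(a, a') ∉ D := fun hd' => hab.2 (by
            rw [Set.mem_singleton_iff]; exact (hD _ _ _ _ hd hd' hxa).symm)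
          exact hE.trans (h _ _ hab.1 h1) (ih (hxa.trans hab.1.reachable))
      exact this _ _ p (Reachable.refl _)
    · exact h x y hadj hd
  obtain ⟨p⟩ := hxy
  induction p with
  | nil => exact hE.refl _
  | cons hab p ih => exact hE.trans (key _ _ hab) ih

theorem ham_of_isCycles {V : Type} [Fintype V] [DecidableEq V] {F G : SimpleGraph V}
    (hle : F ≤ G) (hF : F.IsCycles) (hc : ∀ x y, F.Reachable x y) (v : V)
    (hv : (F.neighborSet v).Nonempty) :
    ∃ c : G.Walk v v, c.IsHamiltonianCycle ∧ ∀ x y, F.Adj x y → s(x, y) ∈ c.edges := by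
  classical
  obtain ⟨p, hp, hver⟩ := hF.exists_cycle_toSubgraph_verts_eq_connectedComponentSupp
    (c := F.connectedComponentMk v) (v := v) (by simp) hv
  have hall : ∀ x, x ∈ p.toSubgraph.verts := by
    intro x
    rw [hver]
    simp [hc x v]
  have hsup : ∀ x, x ∈ p.support := fun x => by simpa using hall x
  have hham : p.IsHamiltonianCycle := by
    refine ⟨hp, ?_⟩
    refine hp.isPath_tail.isHamiltonian_of_mem fun x => ?_
    rw [Walk.support_tail_of_not_nil _ hp.not_nil]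
    have h1 := hsup x
    rw [← Walk.cons_tail_support, List.mem_cons] at h1
    rcases h1 with rfl | h1
    · exact Walk.end_mem_tail_support hp.not_nil
    · exact h1
  refine ⟨p.mapLe hle, ?_, fun x y hxy => ?_⟩
  · exact hham.map (f := Hom.ofLE hle) Function.bijective_id
  · have := (hp.adj_toSubgraph_iff_of_isCycles hF (hall x) y).2 hxy
    rw [Walk.edges_mapLe_eq_edges]
    exact Walk.adj_toSubgraph_iff_mem_edges.1 this

/-- A system of tubes (cycles of `nx`) and chords (the involution `ch`). -/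
structure Tube (V : Type) where
  nx : V ≃ V
  ch : V → V
  ch_ch : ∀ v, ch (ch v) = v
  nx_ne : ∀ v, nx v ≠ v
  nx_nx_ne : ∀ v, nx (nx v) ≠ v
  ch_ne : ∀ v, ch v ≠ v
  ch_ne_nx : ∀ v, ch v ≠ nx v

namespace Tube

variable {V : Type} (T : Tube V)

theorem nx_ch_ne (v : V) : T.nx (T.ch v) ≠ v := fun h =>
  T.ch_ne_nx (T.ch v) (by rw [T.ch_ch, h])

def G : SimpleGraph V where
  Adj v v' := v' = T.nx v ∨ v = T.nx v' ∨ v' = T.ch v
  symm := ⟨by
    rintro v v' (h | h | h)
    · exact Or.inr (Or.inl h)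
    · exact Or.inl h
    · exact Or.inr (Or.inr (by rw [h, T.ch_ch]))⟩
  loopless := ⟨by
    rintro v (h | h | h)
    · exact T.nx_ne v h.symm
    · exact T.nx_ne v h.symm
    · exact T.ch_ne v h.symm⟩

theorem G_nbr (v : V) : T.G.neighborSet v = {T.nx v, T.nx.symm v, T.ch v} := by
  ext x
  simp only [mem_neighborSet, G, Set.mem_insert_iff, Set.mem_singleton_iff]
  rw [Equiv.eq_symm_apply, eq_comm (a := v)]

theorem ne1 (v : V) : T.nx v ≠ T.nx.symm v := fun h =>
  T.nx_nx_ne v (by rw [h]; simp)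

theorem ne2 (v : V) : T.nx.symm v ≠ T.ch v := fun h =>
  T.nx_ch_ne v (by rw [← h]; simp)

theorem G_degree [Fintype V] [DecidableRel T.G.Adj] : T.G.IsRegularOfDegree 3 := by
  classical
  intro v
  rw [← card_neighborSet_eq_degree, ← Set.toFinset_card, ← Set.ncard_eq_toFinset_card', G_nbr]
  exact Set.ncard_eq_three.2 ⟨_, _, _, T.ne1 v, (T.ch_ne_nx v).symm, T.ne2 v, rfl⟩

def endp (C : Set V) (v : V) : Prop := v ∈ C ∨ T.nx.symm v ∈ C

structure Valid (C : Set V) : Prop where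
  sep : ∀ v ∈ C, T.nx v ∉ C
  cl : ∀ v, T.endp C v → T.endp C (T.ch v)

def F (C : Set V) : SimpleGraph V where
  Adj v v' := (v' = T.nx v ∧ v ∉ C) ∨ (v = T.nx v' ∧ v' ∉ C) ∨
    (v' = T.ch v ∧ T.endp C v ∧ T.endp C v')
  symm := ⟨by
    rintro v v' (h | h | h)
    · exact Or.inr (Or.inl h)
    · exact Or.inl h
    · exact Or.inr (Or.inr ⟨by rw [h.1, T.ch_ch], h.2.2, h.2.1⟩)⟩
  loopless := ⟨by
    rintro v (h | h | h)
    · exact T.nx_ne v h.1.symm
    · exact T.nx_ne v h.1.symm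
    · exact T.ch_ne v h.1.symm⟩

theorem F_le (C : Set V) : T.F C ≤ T.G := by
  rintro v v' (h | h | h)
  · exact Or.inl h.1
  · exact Or.inr (Or.inl h.1)
  · exact Or.inr (Or.inr h.1)

theorem F_nx {C : Set V} {v : V} (h : v ∉ C) : (T.F C).Adj v (T.nx v) := Or.inl ⟨rfl, h⟩

theorem F_ch {C : Set V} (hC : T.Valid C) {v : V} (h : T.endp C v) :
    (T.F C).Adj v (T.ch v) := Or.inr (Or.inr ⟨rfl, h, hC.cl v h⟩)

theorem F_ncard {C : Set V} (hC : T.Valid C) (v : V) : ((T.F C).neighborSet v).ncard = 2 := by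
  have hiff : ∀ x, (T.F C).Adj v x ↔ (x = T.nx v ∧ v ∉ C) ∨
      (x = T.nx.symm v ∧ T.nx.symm v ∉ C) ∨ (x = T.ch v ∧ T.endp C v) := by
    intro x
    constructor
    · rintro (h | h | h)
      · exact Or.inl h
      · have : x = T.nx.symm v := by rw [h.1]; simp
        exact Or.inr (Or.inl ⟨this, this ▸ h.2⟩)
      · exact Or.inr (Or.inr ⟨h.1, h.2.1⟩)
    · rintro (h | h | h)
      · exact Or.inl h
      · exact Or.inr (Or.inl ⟨by rw [h.1]; simp, h.1 ▸ h.2⟩)
      · exact Or.inr (Or.inr ⟨h.1, h.2, h.1 ▸ hC.cl v h.2⟩)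
  by_cases h1 : v ∈ C
  · have h2 : T.nx.symm v ∉ C := fun h => hC.sep _ h (by simpa using h1)
    refine Set.ncard_eq_two.2 ⟨_, _, T.ne2 v, ?_⟩
    ext x
    simp [hiff, h1, h2, endp]
  · by_cases h2 : T.nx.symm v ∈ C
    · refine Set.ncard_eq_two.2 ⟨_, _, (T.ch_ne_nx v).symm, ?_⟩
      ext x
      simp [hiff, h1, h2, endp]
    · refine Set.ncard_eq_two.2 ⟨_, _, T.ne1 v, ?_⟩
      ext x
      simp [hiff, h1, h2, endp]

theorem F_isCycles {C : Set V} (hC : T.Valid C) : (T.F C).IsCycles :=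
  fun v _ => T.F_ncard hC v

theorem F_ham [Fintype V] [DecidableEq V] {C : Set V} (hC : T.Valid C)
    (hc : ∀ x y, (T.F C).Reachable x y) (v : V) :
    ∃ c : T.G.Walk v v, c.IsHamiltonianCycle ∧ ∀ x y, (T.F C).Adj x y → s(x, y) ∈ c.edges :=
  ham_of_isCycles (T.F_le C) (T.F_isCycles hC) hc v
    (Set.nonempty_of_ncard_ne_zero (by rw [T.F_ncard hC v]; norm_num))

/-- Removing at most one tube edge from each class does not lose reachability. -/
theorem merge [Finite V] {C : Set V} (hC : T.Valid C) {K : Type} (cls : V → K)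
    (h1 : ∀ v, cls (T.nx v) = cls v) (h2 : ∀ v, T.endp C v → cls (T.ch v) = cls v)
    (D : Set V) (hD : ∀ v ∈ D, ∀ v' ∈ D, cls v = cls v' → v = v')
    (Rel : V → V → Prop) (hE : Equivalence Rel)
    (r1 : ∀ v, v ∉ C → v ∉ D → Rel v (T.nx v))
    (r2 : ∀ v, T.endp C v → Rel v (T.ch v)) {x y : V} (hxy : (T.F C).Reachable x y) :
    Rel x y := by
  have hcls : ∀ x y, (T.F C).Reachable x y → cls x = cls y := by
    rintro x y ⟨p⟩
    induction p with
    | nil => rfl
    | cons hab p ih =>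
      refine Eq.trans ?_ ih
      rcases hab with h | h | h
      · rw [h.1, h1]
      · rw [h.1, h1]
      · rw [h.1, h2 _ h.2.1]
  have hsym : ∀ x y v, s(x, y) = s(v, T.nx v) → cls x = cls v := by
    intro x y v h
    rcases Sym2.eq_iff.1 h with h | h
    · rw [h.1]
    · rw [h.1, h1]
  refine merge_rel (T.F_isCycles hC) {e | ∃ v ∈ D, e = s(v, T.nx v)} ?_ Rel hE ?_ hxy
  · rintro x y x' y' ⟨v, hv, e⟩ ⟨v', hv', e'⟩ hr
    have : v = v' := hD v hv v' hv' (by
      rw [← hsym _ _ _ e, ← hsym _ _ _ e']; exact hcls _ _ hr)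
    rw [e, e', this]
  · rintro x y (h | h | h) hn
    · rw [h.1]
      exact r1 x h.2 fun hx => hn ⟨x, hx, by rw [h.1]⟩
    · rw [h.1]
      exact hE.symm (r1 y h.2 fun hy => hn ⟨y, hy, by rw [h.1, Sym2.eq_swap]⟩)
    · rw [h.1]
      exact r2 x h.2.1

theorem merge_le [Finite V] {C D : Set V} (hC : T.Valid C) (hC' : T.Valid (C ∪ D)) {K : Type}
    (cls : V → K)
    (h1 : ∀ v, cls (T.nx v) = cls v) (h2 : ∀ v, T.endp C v → cls (T.ch v) = cls v)
    (hD : ∀ v ∈ D, ∀ v' ∈ D, cls v = cls v' → v = v') {x y : V}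
    (hxy : (T.F C).Reachable x y) : (T.F (C ∪ D)).Reachable x y := by
  refine T.merge hC cls h1 h2 D hD _ (T.F (C ∪ D)).reachable_is_equivalence ?_ ?_ hxy
  · intro v a b
    exact (T.F_nx (by simp [a, b])).reachable
  · intro v hv
    refine (T.F_ch hC' ?_).reachable
    rcases hv with h | h
    · exact Or.inl (Or.inl h)
    · exact Or.inr (Or.inl h)

end Tube

end Pool.Agent.Lib.MP_8cd3bd_co
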