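import Mathlib

set_option autoImplicit false

open DihedralGroup

namespace Pool.Agent.Lib.MP_8cd3bd_co

/-- A finite group generated by involutions, free up to length `R`, with dihedral coordinates. -/
structure Data (Λ : Type) [DecidableEq Λ] (R : ℕ) where
  Γ : Type
  [grp : Group Γ]
  [fin : Fintype Γ]
  [dec : DecidableEq Γ]
  s : Λ → Γ
  o : ℕ
  φ : Λ → Γ →* DihedralGroup o
  s_sq : ∀ l, s l * s l = 1
  gen : Subgroup.closure (Set.range s) = ⊤
  pow_o : ∀ g : Γ, g ^ o = 1
  φ_s : ∀ b l, φ b (s l) = if l = b then sr 1 else sr 0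
  free : ∀ L : List Λ, L ≠ [] → L.length ≤ R → L.IsChain (· ≠ ·) → (L.map s).prod ≠ 1

attribute [instance] Data.grp Data.fin Data.dec

section
variable {Λ : Type} [DecidableEq Λ] (R : ℕ)

/-- Reduced words of length at most `R`. -/
def Ball (Λ : Type) (R : ℕ) := {L : List Λ // L.length ≤ R ∧ L.IsChain (· ≠ ·)}

instance [Finite Λ] : Finite (Ball Λ R) := by
  have h := (List.finite_length_le Λ R).subset
    (t := {L : List Λ | L.length ≤ R ∧ L.IsChain (· ≠ ·)}) (fun L hL => hL.1)
  exact h.to_subtype

def act (l : Λ) (L : List Λ) : List Λ :=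
  if L.head? = some l then L.tail else if L.length < R then l :: L else L

theorem act_mem (l : Λ) {L : List Λ} (h : L.length ≤ R ∧ L.IsChain (· ≠ ·)) :
    (act R l L).length ≤ R ∧ (act R l L).IsChain (· ≠ ·) := by
  unfold act
  split_ifs with h1 h2
  · exact ⟨by simp; omega, h.2.tail⟩
  · refine ⟨by simp; omega, ?_⟩
    cases L with
    | nil => simp
    | cons a t =>
      rw [List.isChain_cons_cons]
      exact ⟨fun e => h1 (by simp [e]), h.2⟩
  · exact h

theorem act_act (l : Λ) {L : List Λ} (h : L.length ≤ R ∧ L.IsChain (· ≠ ·)) :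
    act R l (act R l L) = L := by
  by_cases h1 : L.head? = some l
  · cases L with
    | nil => simp at h1
    | cons a t =>
      have e : a = l := by simpa using h1
      subst e
      have h3 : t.head? ≠ some a := by
        cases t with
        | nil => simp
        | cons b u =>
          have := (List.isChain_cons_cons.1 h.2).1
          simpa using this.symm
      have h4 : t.length < R := by have := h.1; simp at this; omega
      simp [act, h3, h4]
  · by_cases h2 : L.length < R
    · simp [act, h1, h2]
    · simp [act, h1, h2]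

def actP (l : Λ) : Equiv.Perm (Ball Λ R) :=
  Function.Involutive.toPerm (fun L => ⟨act R l L.1, act_mem R l L.2⟩)
    (fun L => Subtype.ext (act_act R l L.2))

theorem actP_sq (l : Λ) : actP R l * actP R l = 1 := by
  refine Equiv.ext fun L => Subtype.ext ?_
  exact act_act R l L.2

theorem actP_prod (L : List Λ) (h : L.length ≤ R ∧ L.IsChain (· ≠ ·)) :
    ((L.map (actP R)).prod ⟨[], by simp⟩).1 = L := by
  induction L with
  | nil => simp
  | cons a t ih =>
    have ht : t.length ≤ R ∧ t.IsChain (· ≠ ·) := ⟨by have := h.1; simp at this; omega, h.2.tail⟩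
    rw [List.map_cons, List.prod_cons, Equiv.Perm.mul_apply]
    show act R a _ = _
    rw [ih ht]
    have h3 : t.head? ≠ some a := by
      cases t with
      | nil => simp
      | cons b u =>
        have := (List.isChain_cons_cons.1 h.2).1
        simpa using this.symm
    have h4 : t.length < R := by have := h.1; simp at this; omega
    simp [act, h3, h4]

theorem exists_data (Λ : Type) [Fintype Λ] [DecidableEq Λ] (R : ℕ) : Nonempty (Data Λ R) := by
  classical
  let o := 2 * Nat.card (Equiv.Perm (Ball Λ R))
  have ho : NeZero o := ⟨by have := Nat.card_pos (α := Equiv.Perm (Ball Λ R)); omega⟩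
  let H := Equiv.Perm (Ball Λ R) × (Λ → DihedralGroup o)
  let s0 : Λ → H := fun l => (actP R l, fun b => if l = b then sr 1 else sr 0)
  let K : Subgroup H := Subgroup.closure (Set.range s0)
  let s : Λ → K := fun l => ⟨s0 l, Subgroup.subset_closure ⟨l, rfl⟩⟩
  let _ : Fintype K := Fintype.ofFinite K
  refine ⟨{ Γ := K, s := s, o := o
            φ := fun b => (Pi.evalMonoidHom _ b).comp ((MonoidHom.snd _ _).comp K.subtype)
            s_sq := ?_, gen := ?_, pow_o := ?_, φ_s := ?_, free := ?_ }⟩
  · intro l
    apply Subtype.ext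
    refine Prod.ext (actP_sq R l) (funext fun b => ?_)
    show (if l = b then sr 1 else sr 0 : DihedralGroup o) * (if l = b then sr 1 else sr 0) = 1
    split_ifs <;> exact sr_mul_self _
  · have := Subgroup.closure_closure_coe_preimage (k := Set.range s0)
    rw [← this]
    congr 1
    ext x
    constructor
    · rintro ⟨l, rfl⟩; exact ⟨l, rfl⟩
    · rintro ⟨l, h⟩; exact ⟨l, Subtype.ext h⟩
  · intro g
    apply Subtype.ext
    refine Prod.ext ?_ (funext fun b => ?_)
    · show g.1.1 ^ o = 1
      show g.1.1 ^ (2 * Nat.card (Equiv.Perm (Ball Λ R))) = 1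
      rw [mul_comm, pow_mul, pow_card_eq_one', one_pow]
    · show (g.1.2 b) ^ o = 1
      rcases g.1.2 b with i | i
      · rw [r_pow]; simp
      · show (sr i : DihedralGroup o) ^ (2 * Nat.card (Equiv.Perm (Ball Λ R))) = 1
        rw [pow_mul, sq, sr_mul_self, one_pow]
  · intro b l; rfl
  · intro L hL h1 h2 h
    have h3 := congrArg ((MonoidHom.fst _ _).comp K.subtype) h
    rw [map_list_prod, List.map_map, map_one] at h3
    have h4 := actP_prod R L ⟨h1, h2⟩
    have h5 : (L.map (actP R)).prod = 1 := h3
    rw [h5] at h4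
    exact hL h4.symm

end

end Pool.Agent.Lib.MP_8cd3bd_co
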