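import Pool.Agent.Lib.MP_8cd3bd_co.Grp

set_option autoImplicit false

open DihedralGroup

namespace Pool.Agent.Lib.MP_8cd3bd_co

def bar (j : ℤ) : ℤ := if j % 3 = 0 then j else if j % 3 = 1 then j + 1 else j - 1

theorem bar_bar (j : ℤ) : bar (bar j) = j := by
  unfold bar; split_ifs <;> omega

theorem bar_div (j : ℤ) : bar j / 3 = j / 3 := by
  unfold bar; split_ifs <;> omega

theorem bar_cases (j : ℤ) : (j % 3 = 0 ∧ bar j = j) ∨ (j % 3 = 1 ∧ bar j = j + 1) ∨
    (j % 3 = 2 ∧ bar j = j - 1) := by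
  unfold bar; split_ifs <;> omega

def Alt (x y : ℤ) : Prop := y = bar x + 1 ∨ y = bar x - 1

theorem Alt.rev {x y : ℤ} (h : Alt x y) : Alt (bar y) (bar x) := by
  unfold Alt at *
  rw [bar_bar]; omega

theorem Alt.ne {x y : ℤ} (h : Alt x y) : y ≠ bar x := by
  unfold Alt at h; omega

variable (w : ℕ)

def lt (i τ : ℤ) : ZMod (4 * w) := ((i + τ * w : ℤ) : ZMod (4 * w))

theorem lt_inj {i i' τ τ' : ℤ} (h : |i - i'| < w) (h0 : 0 ≤ τ) (h3 : τ ≤ 3) (h0' : 0 ≤ τ')
    (h3' : τ' ≤ 3) (e : lt w i τ = lt w i' τ') : i = i' ∧ τ = τ' := by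
  unfold lt at e
  rw [ZMod.intCast_eq_intCast_iff_dvd_sub] at e
  rw [abs_lt] at h
  push_cast at e
  obtain ⟨t, ht⟩ := e
  have hw : (0 : ℤ) < w := by omega
  have h1 : (τ' - τ - 4 * t) * w = i - i' := by linarith
  have h2 : τ' - τ - 4 * t = 0 := by
    by_contra hne
    rcases lt_or_gt_of_ne hne with h | h
    · have : (τ' - τ - 4 * t) * w ≤ -1 * w := mul_le_mul_of_nonneg_right (by omega) hw.le
      omega
    · have : 1 * (w : ℤ) ≤ (τ' - τ - 4 * t) * w := mul_le_mul_of_nonneg_right (by omega) hw.le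
      omega
  rw [h2] at h1
  omega

def base (i : ℤ) : List (ZMod (4 * w)) :=
  if i % (8 * w) < 4 * w then [lt w i 1, lt w i 2, lt w i 3] else [lt w i 1, lt w i 2]

def lets (j : ℤ) : List (ZMod (4 * w)) :=
  if j % 3 = 0 then [lt w (j / 3) 0] else if j % 3 = 1 then base w (j / 3)
    else (base w (j / 3)).reverse

theorem lets_bar (j : ℤ) : lets w (bar j) = (lets w j).reverse := by
  unfold lets
  rw [bar_div]
  rcases bar_cases j with h | h | h
  · simp [h.1, h.2]
  · have : (j + 1) % 3 = 2 := by omega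
    simp [h.1, h.2, this]
  · have : (j - 1) % 3 = 1 := by omega
    simp [h.1, h.2, this]

def tp (j : ℤ) : ℤ :=
  if j % 3 = 0 then 0 else if j % 3 = 1 then 1 else if j / 3 % (8 * w) < 4 * w then 3 else 2

def hd (j : ℤ) : ZMod (4 * w) := lt w (j / 3) (tp w j)

theorem lets_head (j : ℤ) : (lets w j).head? = some (hd w j) := by
  unfold lets hd tp base
  split_ifs <;> simp

theorem lets_last (j : ℤ) : (lets w j).getLast? = some (hd w (bar j)) := by
  rw [← lets_head, lets_bar, List.head?_reverse]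

theorem lets_ne (j : ℤ) : lets w j ≠ [] := by
  intro h
  have := lets_head w j
  rw [h] at this
  simp at this

theorem lets_len (j : ℤ) : (lets w j).length ≤ 3 := by
  unfold lets base
  split_ifs <;> simp

theorem lt_ne (hw : 0 < w) (i : ℤ) {τ τ' : ℤ} (h0 : 0 ≤ τ) (h3 : τ ≤ 3) (h0' : 0 ≤ τ')
    (h3' : τ' ≤ 3) (h : τ ≠ τ') : lt w i τ ≠ lt w i τ' :=
  fun e => h (lt_inj w (by simpa using hw) h0 h3 h0' h3' e).2

theorem lets_chain (hw : 0 < w) (j : ℤ) : (lets w j).IsChain (· ≠ ·) := by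
  have h12 := lt_ne w hw (j / 3) (τ := 1) (τ' := 2) (by omega) (by omega) (by omega) (by omega)
    (by omega)
  have h23 := lt_ne w hw (j / 3) (τ := 2) (τ' := 3) (by omega) (by omega) (by omega) (by omega)
    (by omega)
  unfold lets base
  split_ifs <;> simp [h12, h23, h12.symm, h23.symm]

theorem hd_inj {j j' : ℤ} (h : |j / 3 - j' / 3| < w) (e : hd w j = hd w j') : j = j' := by
  have b : ∀ x, 0 ≤ tp w x ∧ tp w x ≤ 3 := by
    intro x; unfold tp; split_ifs <;> omega
  have := lt_inj w h (b j).1 (b j).2 (b j').1 (b j').2 e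
  unfold tp at this
  split_ifs at this <;> omega

theorem not_mem_lets {j β : ℤ} (h : |j / 3 - β| < w) (hj : j ≠ 3 * β) : lt w β 0 ∉ lets w j := by
  have key : ∀ τ : ℤ, 0 ≤ τ → τ ≤ 3 → lt w β 0 = lt w (j / 3) τ → j / 3 = β ∧ τ = 0 :=
    fun τ h0 h3 e => lt_inj w h h0 h3 le_rfl (by omega) e.symm
  have k1 : lt w β 0 ≠ lt w (j / 3) 1 := fun e => by have := key 1 (by omega) (by omega) e; omega
  have k2 : lt w β 0 ≠ lt w (j / 3) 2 := fun e => by have := key 2 (by omega) (by omega) e; omega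
  have k3 : lt w β 0 ≠ lt w (j / 3) 3 := fun e => by have := key 3 (by omega) (by omega) e; omega
  unfold lets base
  split_ifs with h1
  · rw [List.mem_singleton]
    intro e
    have := key 0 (by omega) (by omega) e
    omega
  all_goals simp [k1, k2, k3]

variable {w} {R : ℕ} (D : Data (ZMod (4 * w)) R)

def gam (j : ℤ) : D.Γ := ((lets w j).map D.s).prod

theorem prod_reverse (L : List (ZMod (4 * w))) :
    (L.reverse.map D.s).prod = ((L.map D.s).prod)⁻¹ := by
  induction L with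
  | nil => simp
  | cons a t ih =>
    rw [List.reverse_cons, List.map_append, List.prod_append, ih]
    simp [inv_eq_of_mul_eq_one_right (D.s_sq a)]

theorem gam_bar (j : ℤ) : gam D (bar j) = (gam D j)⁻¹ := by
  unfold gam
  rw [lets_bar, prod_reverse]

theorem gam_ne_one (hw : 0 < w) (hR : 3 ≤ R) (j : ℤ) : gam D j ≠ 1 :=
  D.free _ (lets_ne w j) ((lets_len w j).trans hR) (lets_chain w hw j)

theorem gam_zero (i : ℤ) : gam D (3 * i) = D.s (lt w i 0) := by
  have h1 : 3 * i % 3 = 0 := by omega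
  have h2 : 3 * i / 3 = i := by omega
  simp [gam, lets, h1, h2]

theorem bar_add (j t : ℤ) : bar (j + 24 * w * t) = bar j + 24 * w * t := by
  have : (j + 24 * w * t) % 3 = j % 3 := by
    rw [show j + 24 * w * t = j + 3 * (8 * w * t) by ring, Int.add_mul_emod_self_left]
  unfold bar
  rw [this]
  split_ifs <;> ring

theorem lets_add (j t : ℤ) : lets w (j + 24 * w * t) = lets w j := by
  have h1 : (j + 24 * w * t) % 3 = j % 3 := by
    rw [show j + 24 * w * t = j + 3 * (8 * w * t) by ring, Int.add_mul_emod_self_left]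
  have h2 : (j + 24 * w * t) / 3 = j / 3 + 8 * w * t := by
    rw [show j + 24 * w * t = j + 3 * (8 * w * t) by ring, Int.add_mul_ediv_left _ _ (by norm_num)]
  have h3 : ∀ i τ : ℤ, lt w (i + 8 * w * t) τ = lt w i τ := by
    intro i τ
    unfold lt
    rw [ZMod.intCast_eq_intCast_iff_dvd_sub]
    exact ⟨-2 * t, by push_cast; ring⟩
  unfold lets base
  rw [h1, h2, Int.add_mul_emod_self_left]
  simp only [h3]

theorem gam_add (j t : ℤ) : gam D (j + 24 * w * t) = gam D j := by
  unfold gam; rw [lets_add]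

/-- Reduced chord paths between tubes, with first layer and arrival layer. -/
inductive RP (i0 hm : ℤ) : D.Γ → ℤ → ℤ → D.Γ → ℤ → Prop
  | single (g : D.Γ) (j : ℤ) (h : |j / 3 - i0| ≤ hm) : RP i0 hm g j (bar j) (g * gam D j) 1
  | trans {g g' g'' : D.Γ} {f e f' e' l l' : ℤ} : RP i0 hm g f e g' l → RP i0 hm g' f' e' g'' l' →
      f' ≠ e → RP i0 hm g f e' g'' (l + l')
  | mono {g g' : D.Γ} {f e l l' : ℤ} : RP i0 hm g f e g' l → l ≤ l' → RP i0 hm g f e g' l'

variable {D} {i0 hm : ℤ}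

theorem RP.symm {g g' : D.Γ} {f e l : ℤ} (h : RP D i0 hm g f e g' l) : RP D i0 hm g' e f g l := by
  induction h with
  | single g j h =>
    have := RP.single (D := D) (i0 := i0) (hm := hm) (g * gam D j) (bar j) (by rwa [bar_div])
    rwa [bar_bar, gam_bar, mul_inv_cancel_right] at this
  | trans _ _ hne ih1 ih2 => exact (ih2.trans ih1 hne.symm).mono (by omega)
  | mono _ hl ih => exact ih.mono hl

theorem RP.list (hw : 2 * hm < w) {g g' : D.Γ} {f e l : ℤ} (h : RP D i0 hm g f e g' l) :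
    |f / 3 - i0| ≤ hm ∧ |e / 3 - i0| ≤ hm ∧ ∃ L : List (ZMod (4 * w)), (L.length : ℤ) ≤ 3 * l ∧
      L.IsChain (· ≠ ·) ∧ L.head? = some (hd w f) ∧ L.getLast? = some (hd w e) ∧
      g' = g * (L.map D.s).prod := by
  induction h with
  | single g j h =>
    have h0 : 0 < w := by have := abs_nonneg (j / 3 - i0); omega
    refine ⟨h, by rwa [bar_div], lets w j, ?_, lets_chain w h0 j, lets_head w j, lets_last w j, rfl⟩
    have := lets_len w j
    omega
  | @trans g g' g'' f e f' e' l l' _ _ hne ih1 ih2 =>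
    obtain ⟨a1, a2, L, a3, a4, a5, a6, a7⟩ := ih1
    obtain ⟨b1, b2, M, b3, b4, b5, b6, b7⟩ := ih2
    refine ⟨a1, b2, L ++ M, by simp; omega, ?_, ?_, ?_, ?_⟩
    · refine List.isChain_append.2 ⟨a4, b4, fun x hx y hy => ?_⟩
      rw [a6] at hx
      rw [b5] at hy
      simp only [Option.mem_def, Option.some.injEq] at hx hy
      rw [← hx, ← hy]
      intro e0
      refine hne (hd_inj w ?_ e0).symm
      rw [abs_le] at a2 b1
      rw [abs_lt]
      omega
    · rw [List.head?_append, a5]; rfl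
    · rw [List.getLast?_append, b6]; rfl
    · rw [b7, a7, List.map_append, List.prod_append, mul_assoc]
  | mono _ hl ih =>
    obtain ⟨a1, a2, L, a3, a4⟩ := ih
    exact ⟨a1, a2, L, by omega, a4⟩

theorem RP.ne (hw : 2 * hm < w) {g g' : D.Γ} {f e l : ℤ} (h : RP D i0 hm g f e g' l)
    (hl : 3 * l ≤ R) : g ≠ g' := by
  obtain ⟨-, -, L, a3, a4, a5, -, a7⟩ := h.list hw
  intro e0
  refine D.free L (fun h0 => by simp [h0] at a5) (by omega) a4 ?_
  rw [← e0] at a7
  simpa using a7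

/-- The dihedral coordinate of `g` at letter `b` is at most `E` in absolute value. -/
def Small (D : Data (ZMod (4 * w)) R) (b : ZMod (4 * w)) (g : D.Γ) (E : ℤ) : Prop :=
  ∃ x : ℤ, |x| ≤ E ∧ (D.φ b g = r (x : ZMod D.o) ∨ D.φ b g = sr (x : ZMod D.o))

theorem Small.one (b : ZMod (4 * w)) : Small D b 1 0 := ⟨0, by simp, Or.inl (by simp)⟩

theorem Small.mono {b : ZMod (4 * w)} {g : D.Γ} {E E' : ℤ} (h : Small D b g E) (hE : E ≤ E') :
    Small D b g E' := by
  obtain ⟨x, h1, h2⟩ := h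
  exact ⟨x, h1.trans hE, h2⟩

theorem Small.mul {b : ZMod (4 * w)} {g g' : D.Γ} {E E' : ℤ} (h : Small D b g E)
    (h' : Small D b g' E') : Small D b (g * g') (E + E') := by
  obtain ⟨x, h1, h2⟩ := h
  obtain ⟨y, h3, h4⟩ := h'
  rw [abs_le] at h1 h3
  rcases h2 with h2 | h2 <;> rcases h4 with h4 | h4
  · exact ⟨x + y, by rw [abs_le]; omega, Or.inl (by simp [h2, h4])⟩
  · exact ⟨y - x, by rw [abs_le]; omega, Or.inr (by simp [h2, h4])⟩
  · exact ⟨x + y, by rw [abs_le]; omega, Or.inr (by simp [h2, h4])⟩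
  · exact ⟨y - x, by rw [abs_le]; omega, Or.inl (by simp [h2, h4])⟩

theorem Small.inv {b : ZMod (4 * w)} {g : D.Γ} {E : ℤ} (h : Small D b g E) :
    Small D b g⁻¹ E := by
  obtain ⟨x, h1, h2 | h2⟩ := h
  · exact ⟨-x, by simpa using h1, Or.inl (by simp [h2])⟩
  · exact ⟨x, h1, Or.inr (by simp [h2])⟩

theorem small_list (b : ZMod (4 * w)) (L : List (ZMod (4 * w))) :
    Small D b (L.map D.s).prod L.length := by
  induction L with
  | nil => simpa using Small.one b
  | cons a t ih =>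
    have : Small D b (D.s a) 1 := by
      by_cases h : a = b
      · exact ⟨1, by simp, Or.inr (by simp [D.φ_s, h])⟩
      · exact ⟨0, by simp, Or.inr (by simp [D.φ_s, h])⟩
    simpa [add_comm] using this.mul ih

theorem small_list0 (b : ZMod (4 * w)) (L : List (ZMod (4 * w))) (h : b ∉ L) :
    Small D b (L.map D.s).prod 0 := by
  induction L with
  | nil => simpa using Small.one b
  | cons a t ih =>
    rw [List.mem_cons, not_or] at h
    have : Small D b (D.s a) 0 := ⟨0, by simp, Or.inr (by simp [D.φ_s, Ne.symm h.1])⟩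
    simpa using this.mul (ih h.2)

theorem small_gam (b : ZMod (4 * w)) (j : ℤ) : Small D b (gam D j) 3 :=
  (small_list b _).mono (by have := lets_len w j; omega)

theorem small_gam0 (hw : 2 * hm < w) {j β : ℤ} (h1 : |j / 3 - i0| ≤ hm) (h2 : |β - i0| ≤ hm)
    (hj : j ≠ 3 * β) : Small D (lt w β 0) (gam D j) 0 := by
  refine small_list0 _ _ (not_mem_lets w ?_ hj)
  rw [abs_le] at h1 h2
  rw [abs_lt]
  omega

end Pool.Agent.Lib.MP_8cd3bd_co
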