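import Pool.Agent.Lib.MP_8cd3bd_co.Layers

set_option autoImplicit false

open DihedralGroup

namespace Pool.Agent.Lib.MP_8cd3bd_co

theorem exists_z {Γ : Type} [Group Γ] (f : ℤ → Γ) (g0 : Γ) :
    ∃ z : ℤ → Γ, z 0 = g0 ∧ ∀ n, z (n + 1) = z n * f n := by
  let pos : ℕ → Γ := fun k => Nat.rec g0 (fun k x => x * f k) k
  let neg : ℕ → Γ := fun k => Nat.rec g0 (fun k x => x * (f (Int.negSucc k))⁻¹) k
  refine ⟨fun n => match n with
    | Int.ofNat k => pos k
    | Int.negSucc k => neg (k + 1), rfl, ?_⟩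
  intro n
  rcases n with k | k
  · rfl
  · rcases k with _ | k
    · show g0 = g0 * (f (Int.negSucc 0))⁻¹ * f (Int.negSucc 0)
      simp
    · show neg (k + 1) = neg (k + 1) * (f (Int.negSucc (k + 1)))⁻¹ * f (Int.negSucc (k + 1))
      simp

variable {w R : ℕ} {D : Data (ZMod (4 * w)) R} {i0 hm : ℤ}

theorem small_between {z : ℤ → D.Γ} {ω : ℤ → ℤ} (step : ∀ n, z (n + 1) = z n * gam D (ω n))
    (b : ZMod (4 * w)) (c : ℤ) (a : ℤ) : ∀ a', a ≤ a' →
      (∀ t, a ≤ t → t < a' → Small D b (gam D (ω t)) c) →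
      Small D b ((z a)⁻¹ * z a') (c * (a' - a)) := by
  intro a' h
  induction a', h using Int.leInduction with
  | base => intro _; simpa using Small.one b
  | succ n hn ih =>
    intro h
    have := (ih fun t h1 h2 => h t h1 (by omega)).mul (h n hn (by omega))
    rw [step, ← mul_assoc]
    exact this.mono (le_of_eq (by ring))

theorem small_abs {z : ℤ → D.Γ} {ω : ℤ → ℤ} (step : ∀ n, z (n + 1) = z n * gam D (ω n))
    (b : ZMod (4 * w)) (c : ℤ) (n : ℤ)
    (h : ∀ t, (0 ≤ t ∧ t < n ∨ n ≤ t ∧ t < 0) → Small D b (gam D (ω t)) c) :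
    Small D b ((z 0)⁻¹ * z n) (c * |n|) := by
  rcases le_total 0 n with h0 | h0
  · have := small_between step b c 0 n h0 fun t h1 h2 => h t (Or.inl ⟨h1, h2⟩)
    rw [abs_of_nonneg h0]
    simpa using this
  · have := (small_between step b c n 0 h0 fun t h1 h2 => h t (Or.inr ⟨h1, h2⟩)).inv
    rw [abs_of_nonpos h0]
    simpa using this

theorem rp_fwd {z : ℤ → D.Γ} {ω : ℤ → ℤ} (step : ∀ n, z (n + 1) = z n * gam D (ω n))
    (alt : ∀ n, Alt (ω n) (ω (n + 1))) (rng : ∀ n, |ω n / 3 - i0| ≤ hm) (n : ℤ) :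
    ∀ n', n + 1 ≤ n' → RP D i0 hm (z n) (ω n) (bar (ω (n' - 1))) (z n') (n' - n) := by
  intro n' h
  induction n', h using Int.leInduction with
  | base =>
    have := RP.single (D := D) (z n) (ω n) (rng n)
    rw [← step] at this
    simpa using this
  | succ k hk ih =>
    have h1 := RP.single (D := D) (z k) (ω k) (rng k)
    rw [← step] at h1
    have h2 := (alt (k - 1)).ne
    rw [sub_add_cancel] at h2
    have := ih.trans h1 h2
    rw [add_sub_cancel_right]
    exact this.mono (by omega)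

theorem rp_from {z : ℤ → D.Γ} {ω : ℤ → ℤ} (step : ∀ n, z (n + 1) = z n * gam D (ω n))
    (alt : ∀ n, Alt (ω n) (ω (n + 1))) (rng : ∀ n, |ω n / 3 - i0| ≤ hm) (n0 n : ℤ) :
    n = n0 ∨ ∃ f x, RP D i0 hm (z n0) f x (z n) |n - n0| ∧ (f = ω n0 ∨ f = bar (ω (n0 - 1))) := by
  rcases lt_trichotomy n n0 with h | h | h
  · exact Or.inr ⟨_, _, (rp_fwd step alt rng n n0 h).symm.mono
      (by rw [abs_sub_comm]; exact le_abs_self _), Or.inr rfl⟩
  · exact Or.inl h
  · exact Or.inr ⟨_, _, (rp_fwd step alt rng n0 n h).mono (le_abs_self _), Or.inl rfl⟩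

/-- A periodic alternating line. -/
structure Line (D : Data (ZMod (4 * w)) R) (i0 h B : ℤ) where
  z : ℤ → D.Γ
  ω : ℤ → ℤ
  β : ℤ
  hβ : |β - i0| = h
  step : ∀ n, z (n + 1) = z n * gam D (ω n)
  alt : ∀ n, Alt (ω n) (ω (n + 1))
  rng : ∀ n, |ω n / 3 - i0| ≤ h
  near : ∀ n E, Small D (lt w β 0) ((z 0)⁻¹ * z n) E →
    ∃ n', |n'| ≤ (E + 1) * B ∧ z n' = z n ∧ ω n' = ω n ∧ ω (n' - 1) = ω (n - 1)
  inj : ∀ n n', z n = z n' → ω n = ω n' ∧ ω (n - 1) = ω (n' - 1)

theorem small0_iff {b : ZMod (4 * w)} {g : D.Γ} (h : Small D b g 0) :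
    D.φ b g = r 0 ∨ D.φ b g = sr 0 := by
  obtain ⟨x, h1, h2⟩ := h
  have : x = 0 := by simpa using h1
  simpa [this] using h2

theorem exists_line_of_seg (hw : 2 * hm < w) (X : ℤ → ℤ) (m m' : ℤ) (hm1 : 1 ≤ m) (hm2 : 1 ≤ m')
    (β h B : ℤ) (hh : h ≤ hm) (hβ : |β - i0| = h)
    (alt : ∀ n, -m' ≤ n → n < m → Alt (X n) (X (n + 1))) (hXm : X m % 3 = 0)
    (hX0 : X (-m') = 3 * β) (hne : ∀ n, -m' < n → n ≤ m → X n ≠ 3 * β)
    (rng : ∀ n, -m' ≤ n → n ≤ m → |X n / 3 - i0| ≤ h) (hB : 2 * (m + m') ≤ B)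
    (hR : 6 * B ≤ R) (g0 : D.Γ) :
    ∃ l : Line D i0 h B, l.z 0 = g0 ∧ l.ω 0 = X 0 ∧ l.ω 1 = X 1 ∧ l.ω (-1) = X (-1) := by
  obtain ⟨L, hL⟩ : ∃ L, L = 2 * (m + m') := ⟨_, rfl⟩
  have hL0 : 0 < L := by omega
  let Y : ℤ → ℤ := fun n => if n ≤ m then X n else bar (X (2 * m - n))
  let ω : ℤ → ℤ := fun n => Y ((n + m') % L - m')
  have hω : ∀ n, -m' ≤ n → n < -m' + L → ω n = Y n := by
    intro n h1 h2
    simp only [ω]
    rw [Int.emod_eq_of_lt (by omega) (by omega), add_sub_cancel_right]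
  have per : ∀ n j, ω (n + j * L) = ω n := by
    intro n j
    simp only [ω]
    rw [show n + j * L + m' = n + m' + j * L by ring, Int.add_mul_emod_self_right]
  have dec : ∀ a n : ℤ, ∃ n0 j, a ≤ n0 ∧ n0 < a + L ∧ n = n0 + j * L := by
    intro a n
    refine ⟨(n - a) % L + a, (n - a) / L, ?_, ?_, ?_⟩
    · have := Int.emod_nonneg (n - a) hL0.ne'; omega
    · have := Int.emod_lt_of_pos (n - a) hL0; omega
    · have := Int.emod_add_ediv_mul (n - a) L; linarith
  have hY1 : ∀ n, n ≤ m → Y n = X n := fun n h => if_pos h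
  have hbm : bar (X m) = X m := by unfold bar; rw [if_pos hXm]
  have hY2 : ∀ n, m ≤ n → Y n = bar (X (2 * m - n)) := by
    intro n h
    rcases h.eq_or_lt with h | h
    · rw [← h, hY1 m le_rfl, show 2 * m - m = m by ring, hbm]
    · exact if_neg (by omega)
  have hb0 : bar (X (-m')) = X (-m') := by
    rw [hX0]; unfold bar; rw [if_pos (by omega)]
  have altω : ∀ n, Alt (ω n) (ω (n + 1)) := by
    intro n
    obtain ⟨n0, j, h1, h2, rfl⟩ := dec (-m') n
    rw [show n0 + j * L + 1 = n0 + 1 + j * L by ring, per, per, hω n0 h1 h2]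
    by_cases h3 : n0 + 1 < -m' + L
    · rw [hω _ (by omega) h3]
      by_cases h4 : n0 < m
      · rw [hY1 _ h4.le, hY1 _ (by omega)]; exact alt _ h1 h4
      · rw [hY2 _ (by omega), hY2 _ (by omega)]
        have := (alt (2 * m - (n0 + 1)) (by omega) (by omega)).rev
        rwa [show 2 * m - (n0 + 1) + 1 = 2 * m - n0 by ring] at this
    · rw [show n0 + 1 = -m' + 1 * L by omega, per, hω _ le_rfl (by omega), hY1 (-m') (by omega),
        hY2 _ (by omega), show 2 * m - n0 = -m' + 1 by omega, ← hb0]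
      exact (alt (-m') le_rfl (by omega)).rev
  have rngω : ∀ n, |ω n / 3 - i0| ≤ h := by
    intro n
    obtain ⟨n0, j, h1, h2, rfl⟩ := dec (-m') n
    rw [per, hω n0 h1 h2]
    by_cases h4 : n0 ≤ m
    · rw [hY1 _ h4]; exact rng _ h1 h4
    · rw [hY2 _ (by omega), bar_div]; exact rng _ (by omega) (by omega)
  obtain ⟨z, z0, step⟩ := exists_z (fun n => gam D (ω n)) g0
  let u : ℤ → D.Γ := fun n => (z 0)⁻¹ * z n
  have ustep : ∀ n, u (n + 1) = u n * gam D (ω n) := fun n => by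
    simp only [u]; rw [step, mul_assoc]
  have ustep' : ∀ n, u (n - 1) = u n * (gam D (ω (n - 1)))⁻¹ := fun n => by
    have := ustep (n - 1)
    rw [sub_add_cancel] at this
    rw [this]; simp
  have uper1 : ∀ n, u (n + L) = u L * u n := by
    intro n
    induction n using Int.induction_on with
    | zero => simp [u]
    | succ k ih =>
      have := per k 1
      rw [one_mul] at this
      rw [show (k : ℤ) + 1 + L = k + L + 1 by ring, ustep, ustep, ih, this, mul_assoc]
    | pred k ih =>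
      have := per (-k - 1) 1
      rw [one_mul] at this
      rw [show -(k : ℤ) - 1 + L = -k + L - 1 by ring, ustep', ustep', ih,
        show -(k : ℤ) + L - 1 = -k - 1 + L by ring, this, mul_assoc]
  have uper : ∀ n j, u (n + j * L) = u L ^ j * u n := by
    intro n j
    induction j using Int.induction_on with
    | zero => simp
    | succ k ih =>
      rw [show n + ((k : ℤ) + 1) * L = n + k * L + L by ring, uper1, ih, ← mul_assoc,
        add_comm (k : ℤ) 1, zpow_add, zpow_one]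
    | pred k ih =>
      have := uper1 (n + (-(k : ℤ) - 1) * L)
      rw [show n + (-(k : ℤ) - 1) * L + L = n + -k * L by ring, ih] at this
      rw [show -(k : ℤ) - 1 = -1 + -k by ring, zpow_add, zpow_neg_one, mul_assoc, this]
      simp [show -1 + -(k : ℤ) = -k - 1 by ring]
  set b := lt w β 0 with hb
  have hβ' : |β - i0| ≤ hm := hβ ▸ hh
  have sX : ∀ n, -m' < n → n ≤ m → Small D b (gam D (X n)) 0 := fun n h1 h2 =>
    small_gam0 hw ((rng n h1.le h2).trans hh) hβ' (hne n h1 h2)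
  have su1 : ∀ n, -m' < n → n ≤ m → Small D b (u n) 0 := by
    intro n h1 h2
    have := small_abs step b 0 n (fun t ht => by
      rw [hω t (by omega) (by omega), hY1 t (by omega)]
      exact sX t (by omega) (by omega))
    simpa using this
  let ρ : D.Γ := u m * gam D (X m) * (u m)⁻¹
  have refl : ∀ t, 0 ≤ t → t ≤ m + m' - 1 → u (m + 1 + t) = ρ * u (m - t) := by
    intro t ht
    induction t, ht using Int.leInduction with
    | base =>
      intro _
      rw [add_zero, sub_zero, ustep, hω m (by omega) (by omega), hY1 m le_rfl]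
      simp [ρ]
    | succ k hk ih =>
      intro h1
      rw [show m + 1 + (k + 1) = m + 1 + k + 1 by ring, ustep, ih (by omega),
        show m - (k + 1) = m - k - 1 by ring, ustep', hω _ (by omega) (by omega),
        hω _ (by omega) (by omega), hY2 _ (by omega), hY1 _ (by omega), gam_bar,
        show 2 * m - (m + 1 + k) = m - k - 1 by ring, mul_assoc]
  have hρ : D.φ b ρ = sr 0 := by
    have e1 : X m = 3 * (X m / 3) := by omega
    have e2 : D.φ b (gam D (X m)) = sr 0 := by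
      rw [e1, gam_zero, D.φ_s, if_neg]
      intro e
      have h1 := rng m (by omega) le_rfl
      have h2 := hne m (by omega) le_rfl
      have := (lt_inj w (i := X m / 3) (i' := β) (by
        rw [abs_le] at h1 hβ'; rw [abs_lt]; omega) le_rfl (by omega) le_rfl (by omega) e).1
      omega
    simp only [ρ, map_mul, map_inv, e2]
    rcases small0_iff (su1 m (by omega) le_rfl) with e | e <;> simp [e]
  have sρ : Small D b ρ 0 := ⟨0, by simp, Or.inr (by simpa using hρ)⟩
  have su : ∀ n, -m' + 1 ≤ n → n < -m' + 1 + L → Small D b (u n) 0 := by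
    intro n h1 h2
    by_cases h3 : n ≤ m
    · exact su1 n (by omega) h3
    · have := refl (n - m - 1) (by omega) (by omega)
      rw [show m + 1 + (n - m - 1) = n by ring] at this
      rw [this]
      simpa using sρ.mul (su1 _ (by omega) (by omega))
  have hy : ∃ ε : ℤ, (ε = 1 ∨ ε = -1) ∧ D.φ b (u L) = r (ε : ZMod D.o) := by
    have e1 := uper1 (-m')
    have e2 := refl (m + m' - 1) (by omega) le_rfl
    rw [show m + 1 + (m + m' - 1) = -m' + L by omega, show m - (m + m' - 1) = -m' + 1 by ring,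
      e1] at e2
    have e3 := ustep (-m')
    rw [hω _ le_rfl (by omega), hY1 _ (by omega), hX0, gam_zero, ← hb] at e3
    have e4 : u L = ρ * u (-m' + 1) * D.s b * (u (-m' + 1))⁻¹ := by
      rw [← e2, e3]; group
    rw [e4]
    simp only [map_mul, map_inv, hρ, D.φ_s, if_true]
    rcases small0_iff (su1 (-m' + 1) (by omega) (by omega)) with e | e
    · exact ⟨1, Or.inl rfl, by simp [e]⟩
    · exact ⟨-1, Or.inr rfl, by simp [e]⟩
  have near : ∀ n E, Small D b (u n) E →
      ∃ n', |n'| ≤ (E + 1) * B ∧ z n' = z n ∧ ω n' = ω n ∧ ω (n' - 1) = ω (n - 1) := by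
    rintro n E ⟨x, hx, hφ⟩
    obtain ⟨ε, hε, hy⟩ := hy
    obtain ⟨n0, j, h1, h2, rfl⟩ := dec (-m' + 1) n
    have h3 : ∃ j' : ℤ, |j'| ≤ E ∧ (j' : ZMod D.o) = j := by
      rw [uper, map_mul, map_zpow, hy, r_zpow] at hφ
      rcases small0_iff (su n0 h1 h2) with e | e <;> rw [e] at hφ <;>
        rcases hφ with hφ | hφ <;> rcases hε with rfl | rfl
      · exact ⟨x, hx, by simpa using hφ.symm⟩
      · refine ⟨-x, by simpa using hx, ?_⟩
        have : -(j : ZMod D.o) = x := by simpa using hφ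
        simp [← this]
      · simp at hφ
      · simp at hφ
      · simp at hφ
      · simp at hφ
      · refine ⟨-x, by simpa using hx, ?_⟩
        have : -(j : ZMod D.o) = x := by simpa using hφ
        simp [← this]
      · exact ⟨x, hx, by simpa using hφ.symm⟩
    obtain ⟨j', hj, e⟩ := h3
    rw [ZMod.intCast_eq_intCast_iff_dvd_sub] at e
    obtain ⟨t, ht⟩ := e
    refine ⟨n0 + j' * L, ?_, ?_, by rw [per, per], ?_⟩
    · have a1 : |n0| ≤ B := by rw [abs_le]; omega
      have a2 : |j' * L| ≤ E * B := by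
        rw [abs_mul, abs_of_pos hL0]
        exact mul_le_mul hj (by omega) hL0.le ((abs_nonneg _).trans hj)
      have := abs_add_le n0 (j' * L)
      linarith
    · have : u (n0 + j' * L) = u (n0 + j * L) := by
        rw [uper, uper, show j = j' + D.o * t by linarith, zpow_add, zpow_mul, zpow_natCast,
          D.pow_o, one_zpow, mul_one]
      exact mul_left_cancel this
    · rw [show n0 + j' * L - 1 = n0 - 1 + j' * L by ring,
        show n0 + j * L - 1 = n0 - 1 + j * L by ring, per, per]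
  refine ⟨⟨z, ω, β, hβ, step, altω, rngω, near, ?_⟩, z0, ?_, ?_, ?_⟩
  · intro n n' e
    obtain ⟨n0, j, h1, h2, rfl⟩ := dec (-m' + 1) n
    obtain ⟨n1, rfl⟩ : ∃ n1, n' = n1 + j * L := ⟨n' - j * L, by ring⟩
    have e1 : u n0 = u n1 := by
      have : u (n0 + j * L) = u (n1 + j * L) := by simp only [u]; rw [e]
      rw [uper, uper] at this
      exact mul_left_cancel this
    obtain ⟨n2, b1, b2, b3, b4⟩ := near n1 0 (e1 ▸ su n0 h1 h2)
    have e2 : z n0 = z n2 := by rw [b2]; exact mul_left_cancel e1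
    rw [show n0 + j * L - 1 = n0 - 1 + j * L by ring,
        show n1 + j * L - 1 = n1 - 1 + j * L by ring, per, per, per, per, ← b3, ← b4]
    rcases rp_from (hm := hm) step altω (fun n => (rngω n).trans hh) n0 n2 with e3 | ⟨f, x, e3, -⟩
    · rw [e3]; exact ⟨rfl, rfl⟩
    · refine absurd e2 (e3.ne hw ?_)
      have : |n2 - n0| ≤ 2 * B := by
        rw [abs_le] at b1 ⊢; omega
      omega
  · show ω 0 = X 0
    rw [hω _ (by omega) (by omega), hY1 _ (by omega)]
  · show ω 1 = X 1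
    rw [hω _ (by omega) (by omega), hY1 _ (by omega)]
  · show ω (-1) = X (-1)
    rw [hω _ (by omega) (by omega), hY1 _ (by omega)]

theorem exists_ray (i0 j h : ℤ) (hj : |j / 3 - i0| < h) :
    ∃ (m β : ℤ) (ρ : ℤ → ℤ), 0 ≤ m ∧ m ≤ 4 * h ∧ |β - i0| = h ∧ ρ 0 = j ∧ ρ m = 3 * β ∧
      (∀ t, 0 ≤ t → t < m → Alt (ρ t) (ρ (t + 1)) ∧ ρ t ≠ 3 * β) ∧
      ∀ t, 0 ≤ t → t ≤ m → |ρ t / 3 - i0| ≤ h := by
  rw [abs_lt] at hj
  by_cases h2 : j % 3 = 2
  · obtain ⟨n0, hn0⟩ : ∃ n0, n0 = 2 * (-j / 3) + 1 := ⟨_, rfl⟩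
    refine ⟨2 * (h - i0) - n0, i0 - h, fun t => -(3 * ((n0 + t) / 2) + (n0 + t) % 2),
      by omega, by omega, ?_, by simp only; omega, by simp only; omega, ?_, ?_⟩
    · rw [abs_of_nonpos (by omega)]; ring
    · intro t h1 h3
      dsimp only
      refine ⟨?_, by omega⟩
      unfold Alt
      rcases bar_cases (-(3 * ((n0 + t) / 2) + (n0 + t) % 2)) with e | e | e <;> omega
    · intro t h1 h3
      dsimp only
      rw [abs_le]; omega
  · obtain ⟨n0, hn0⟩ : ∃ n0, n0 = 2 * (j / 3) + j % 3 := ⟨_, rfl⟩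
    refine ⟨2 * (h + i0) - n0, i0 + h, fun t => 3 * ((n0 + t) / 2) + (n0 + t) % 2,
      by omega, by omega, ?_, by simp only; omega, by simp only; omega, ?_, ?_⟩
    · rw [abs_of_nonneg (by omega)]; ring
    · intro t h1 h3
      dsimp only
      refine ⟨?_, by omega⟩
      unfold Alt
      rcases bar_cases (3 * ((n0 + t) / 2) + (n0 + t) % 2) with e | e | e <;> omega
    · intro t h1 h3
      dsimp only
      rw [abs_le]; omega

theorem exists_line (hw : 2 * hm < w) (c j1 j2 h B : ℤ) (hh : h ≤ hm)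
    (hc : |c / 3 - i0| < h - 1) (h1 : |j1 / 3 - i0| < h - 1) (h2 : |j2 / 3 - i0| < h - 1)
    (a1 : Alt c j1) (a2 : j2 = c + 1 ∨ j2 = c - 1) (hB : 16 * hm + 4 ≤ B) (hR : 6 * B ≤ R)
    (g0 : D.Γ) :
    ∃ l : Line D i0 h B, l.z 0 = g0 ∧ l.ω 0 = c ∧ l.ω 1 = j1 ∧ bar (l.ω (-1)) = j2 := by
  obtain ⟨m1, β1, ρ1, p1, p2, p3, p4, p5, p6, p7⟩ := exists_ray i0 j1 (h - 1) h1
  obtain ⟨m2, β2, ρ2, q1, q2, q3, q4, q5, q6, q7⟩ := exists_ray i0 j2 h (by omega)
  let X : ℤ → ℤ := fun n => if n = 0 then c else if 0 < n then ρ1 (n - 1) else bar (ρ2 (-n - 1))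
  have X0 : X 0 = c := if_pos rfl
  have Xp : ∀ n, 0 < n → X n = ρ1 (n - 1) := fun n hn => by
    simp only [X]; rw [if_neg (by omega), if_pos hn]
  have Xn : ∀ n, n < 0 → X n = bar (ρ2 (-n - 1)) := fun n hn => by
    simp only [X]; rw [if_neg (by omega), if_neg (by omega)]
  have hb3 : bar (3 * β2) = 3 * β2 := by unfold bar; rw [if_pos (by omega)]
  have hlt : ∀ x, |x / 3 - i0| ≤ h - 1 → x ≠ 3 * β2 := by
    intro x hx e
    rw [e, show 3 * β2 / 3 = β2 by omega] at hx
    omega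
  refine Exists.imp ?_ (exists_line_of_seg (D := D) hw X (m1 + 1) (m2 + 1) (by omega)
    (by omega) β2 h B hh q3 ?_ ?_ ?_ ?_ ?_ (by omega) hR g0)
  · rintro l ⟨e1, e2, e3, e4⟩
    refine ⟨e1, e2.trans X0, ?_, ?_⟩
    · rw [e3, Xp 1 (by omega)]; simpa using p4
    · rw [e4, Xn (-1) (by omega), bar_bar]; simpa using q4
  · intro n hn1 hn2
    rcases lt_trichotomy n 0 with h0 | h0 | h0
    · by_cases h3 : n = -1
      · subst h3
        rw [Xn (-1) (by omega), show (-1 : ℤ) + 1 = 0 by ring, X0,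
          show - (-1 : ℤ) - 1 = 0 by ring, q4]
        unfold Alt
        rw [bar_bar]; omega
      · rw [Xn n h0, Xn (n + 1) (by omega)]
        have := (q6 (-(n + 1) - 1) (by omega) (by omega)).1.rev
        rwa [show -(n + 1) - 1 + 1 = -n - 1 by ring] at this
    · subst h0
      rw [X0, Xp _ (by omega)]
      simpa [p4] using a1
    · rw [Xp n h0, Xp (n + 1) (by omega)]
      have := (p6 (n - 1) (by omega) (by omega)).1
      rwa [show n - 1 + 1 = n + 1 - 1 by ring] at this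
  · rw [Xp _ (by omega), add_sub_cancel_right, p5]; omega
  · rw [Xn _ (by omega), show - -(m2 + 1) - 1 = m2 by ring, q5, hb3]
  · intro n hn1 hn2
    rcases lt_trichotomy n 0 with h0 | h0 | h0
    · rw [Xn n h0]
      intro e
      refine (q6 (-n - 1) (by omega) (by omega)).2 ?_
      rw [← bar_bar (ρ2 (-n - 1)), e, hb3]
    · subst h0; rw [X0]; exact hlt _ hc.le
    · rw [Xp n h0]; exact hlt _ (p7 _ (by omega) (by omega))
  · intro n hn1 hn2
    rcases lt_trichotomy n 0 with h0 | h0 | h0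
    · rw [Xn n h0, bar_div]; exact q7 _ (by omega) (by omega)
    · subst h0; rw [X0]; omega
    · rw [Xp n h0]; exact (p7 _ (by omega) (by omega)).trans (by omega)

end Pool.Agent.Lib.MP_8cd3bd_co
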