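import Pool.Agent.Lib.MP_8cd3bd_co.Sys

set_option autoImplicit false

open Equiv

namespace Pool.Agent.Lib.MP_8cd3bd_co

theorem Tube.endp_union {V : Type} (T : Tube V) (C C' : Set V) (v : V) :
    T.endp (C ∪ C') v ↔ T.endp C v ∨ T.endp C' v := by
  unfold Tube.endp
  simp only [Set.mem_union]
  tauto

namespace Setup

variable {k : ℤ} (S : Setup k) {i0 : ℤ} (W : Wk S.D i0 k)

/-- First stage: all lines through the chords of the walk are switched. -/
theorem stage1 : ∃ (C : Set S.V) (U : Set S.D.Γ), S.T.Valid C ∧ W.a 0 ∈ U ∧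
    (∀ v ∈ C, ∃ j : ℤ, 3 * (i0 - S.hm) ≤ j ∧ j ≤ 3 * (i0 + S.hm) + 1 ∧ v.2 = j) ∧
    (∀ v, S.T.endp C v → v.1 ∈ U ∧
      ∃ j : ℤ, 3 * (i0 - S.hm) ≤ j ∧ j ≤ 3 * (i0 + S.hm) + 2 ∧ v.2 = j) ∧
    (∀ g x y, (S.T.F C).Reachable (g, x) (g, y)) ∧
    (∀ g ∈ U, ∀ x, (S.T.F C).Reachable (W.a 0, x) (g, x)) ∧
    (∀ u, u < W.n → W.σ u = 0 → S.T.endp C (W.a u, ((W.J u : ℤ) : ZMod S.N))) ∧
    (∀ u, u < W.n → W.σ u ≠ 0 →
      (W.a u, ((min (W.J u) (W.J (u + 1)) : ℤ) : ZMod S.N)) ∉ C) := by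
  classical
  let I := {i : ℕ // i < W.n ∧ W.σ i = 0}
  have hex : ∀ i : I, ∃ l : Line S.D i0 (k + 3 + i.1) S.B, W.IsL i.1 l := fun i =>
    W.exists_isL S.hw S.hk S.hB S.R6 i.2.1 i.2.2
  choose l hl using hex
  have hn := W.hn
  have hk := S.hk
  have hw := S.hw
  have hN := S.N_big
  have k0 := S.k0
  have hh : ∀ i : I, k + 3 + i.1 ≤ S.hm := fun i => by have := i.2.1; omega
  let Cut : ℕ → Set S.V := fun t => {v | ∃ i : I, i.1 < t ∧ v ∈ S.lineCut (l i)}
  let U : ℕ → Set S.D.Γ := fun t => {g | ∃ i : I, i.1 < t ∧ ∃ m, g = (l i).z m}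
  have hend : ∀ t v, S.T.endp (Cut t) v ↔ ∃ i : I, i.1 < t ∧ S.T.endp (S.lineCut (l i)) v := by
    intro t v
    constructor
    · rintro (⟨i, h1, h2⟩ | ⟨i, h1, h2⟩)
      · exact ⟨i, h1, Or.inl h2⟩
      · exact ⟨i, h1, Or.inr h2⟩
    · rintro ⟨i, h1, h2 | h2⟩
      · exact Or.inl ⟨i, h1, h2⟩
      · exact Or.inr ⟨i, h1, h2⟩
  have hcp : ∀ (i : I) m m', (l i).z m = (l i).z m' → (l i).cp m = (l i).cp m' := by
    intro i m m' e
    have := (l i).inj m m' e
    unfold Line.cp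
    rw [this.1, this.2]
  have hval : ∀ t, S.T.Valid (Cut t) := by
    intro t
    constructor
    · rintro _ ⟨i, -, m, rfl⟩ ⟨i', -, m', e⟩
      rw [nx_cast, Prod.mk.injEq] at e
      have w1 := S.line_win (l i) (hh i) m
      have w2 := S.line_win (l i') (hh i') m'
      have e2 := S.cast_inj (by rw [abs_lt]; omega) e.2
      rcases lt_trichotomy i.1 i'.1 with h | h | h
      · exact ((hl i).pair hw hk S.hR (hl i') h e.1).2.1 e2
      · obtain rfl : i = i' := Subtype.ext h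
        have := hcp i m m' e.1
        omega
      · exact ((hl i').pair hw hk S.hR (hl i) h e.1.symm).2.2 e2
    · intro v hv
      rw [hend] at hv ⊢
      obtain ⟨i, h1, h2⟩ := hv
      exact ⟨i, h1, S.line_cl _ v h2⟩
  have hU : ∀ t v, S.T.endp (Cut t) v → v.1 ∈ U t := by
    intro t v hv
    rw [hend] at hv
    obtain ⟨i, h1, h2⟩ := hv
    rw [line_endp] at h2
    obtain ⟨m, rfl | rfl⟩ := h2 <;> exact ⟨i, h1, m, rfl⟩
  have hmono : ∀ t x y, (S.T.F ∅).Reachable x y → (S.T.F (Cut t)).Reachable x y := by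
    intro t
    induction t with
    | zero =>
      intro x y h
      have : Cut 0 = ∅ := by ext v; simp [Cut]
      rwa [this]
    | succ t ih =>
      intro x y h
      have e : Cut (t + 1) = Cut t ∪ {v | ∃ i : I, i.1 = t ∧ v ∈ S.lineCut (l i)} := by
        ext v
        constructor
        · rintro ⟨i, h1, h2⟩
          rcases Nat.lt_succ_iff_lt_or_eq.1 h1 with h3 | h3
          · exact Or.inl ⟨i, h3, h2⟩
          · exact Or.inr ⟨i, h3, h2⟩
        · rintro (⟨i, h1, h2⟩ | ⟨i, h1, h2⟩)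
          · exact ⟨i, by omega, h2⟩
          · exact ⟨i, by omega, h2⟩
      rw [e]
      refine S.T.merge_le (hval t) (e ▸ hval (t + 1))
        (fun v => if v.1 ∈ U t then none else some v.1) (fun v => rfl) ?_ ?_ (ih x y h)
      · intro v hv
        simp only [hU t v hv, hU t _ ((hval t).cl v hv), if_true]
      · rintro _ ⟨i, h1, m, rfl⟩ _ ⟨i', h2, m', rfl⟩ h3
        obtain rfl : i = i' := Subtype.ext (h1.trans h2.symm)
        have key : ∀ m, (l i).z m ∈ U t → (l i).z m = W.a i.1 := by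
          rintro m ⟨i', h4, m', e⟩
          exact ((hl i').pair hw hk S.hR (hl i) (by omega) e.symm).1
        have : (l i).z m = (l i).z m' := by
          by_cases a1 : (l i).z m ∈ U t <;> by_cases a2 : (l i).z m' ∈ U t
          · rw [key m a1, key m' a2]
          · simp [a1, a2] at h3
          · simp [a1, a2] at h3
          · simpa [a1, a2] using h3
        rw [this, hcp i m m' this]
  have htube : ∀ g x y, (S.T.F (Cut W.n)).Reachable (g, x) (g, y) :=
    fun g x y => hmono _ _ _ (S.tube_reach g x y)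
  have hch : ∀ u, u < W.n → W.σ u = 0 →
      S.T.endp (Cut W.n) (W.a u, ((W.J u : ℤ) : ZMod S.N)) := by
    intro u h1 h2
    rw [hend]
    refine ⟨⟨u, h1, h2⟩, h1, ?_⟩
    rw [line_endp]
    exact ⟨0, Or.inl (by rw [(hl _).z0, (hl _).ω0])⟩
  have hwalk : ∀ u, u ≤ W.n → ∀ x, (S.T.F (Cut W.n)).Reachable (W.a 0, x) (W.a u, x) := by
    intro u
    induction u with
    | zero => intro _ x; rfl
    | succ u ih =>
      intro h x
      rcases W.st u h with e | e
      · have := (S.T.F_ch (hval _) (hch u h e.1)).reachable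
        rw [T_ch, ← e.2.1] at this
        exact ((ih (by omega) x).trans (htube _ _ _)).trans (this.trans (htube _ _ _))
      · rw [e.2.1]; exact ih (by omega) x
  refine ⟨Cut W.n, insert (W.a 0) (U W.n), hval _, Set.mem_insert _ _, ?_, ?_, htube, ?_, hch, ?_⟩
  · rintro _ ⟨i, -, m, rfl⟩
    have w1 := S.line_win (l i) (hh i) m
    exact ⟨_, w1.2.2.1, w1.2.2.2, rfl⟩
  · intro v hv
    refine ⟨Set.mem_insert_of_mem _ (hU _ v hv), ?_⟩
    rw [hend] at hv
    obtain ⟨i, h1, h2⟩ := hv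
    rw [line_endp] at h2
    obtain ⟨m, h2⟩ := h2
    have w1 := S.line_win (l i) (hh i) m
    rcases h2 with rfl | rfl
    · exact ⟨_, w1.1.1, w1.1.2, rfl⟩
    · exact ⟨_, w1.2.1.1, w1.2.1.2, rfl⟩
  · rintro g (rfl | ⟨i, h1, m, rfl⟩) x
    · rfl
    · have hstep : ∀ m, (S.T.F (Cut W.n)).Reachable ((l i).z m, x) ((l i).z (m + 1), x) := by
        intro m
        have := (S.T.F_ch (hval W.n) ((hend _ _).2 ⟨i, h1, (S.line_endp _ _).2
          ⟨m, Or.inl rfl⟩⟩)).reachable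
        rw [line_ch] at this
        exact (htube _ _ _).trans (this.trans (htube _ _ _))
      refine (hwalk i.1 h1.le x).trans ?_
      rw [← (hl i).z0]
      induction m using Int.induction_on with
      | zero => rfl
      | succ m ih => exact ih.trans (hstep _)
      | pred m ih =>
        have := hstep (-(m : ℤ) - 1)
        rw [sub_add_cancel] at this
        exact ih.trans this.symm
  · rintro u h1 h2 ⟨i, -, m, e⟩
    rw [Prod.mk.injEq] at e
    have w1 := S.line_win (l i) (hh i) m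
    have r1 := W.rng u h1.le
    have r2 := W.rng (u + 1) h1
    rw [abs_le] at r1 r2
    exact (hl i).tube hw hk S.B_nonneg S.hR h1 h2 e.1.symm
      (S.cast_inj (by rw [abs_lt]; omega) e.2).symm

theorem main : ∃ C : Set S.V, S.T.Valid C ∧ (∀ x y, (S.T.F C).Reachable x y) ∧
    ∀ u, u < W.n → (S.T.F C).Adj (W.a u, ((W.J u : ℤ) : ZMod S.N))
      (W.a (u + 1), ((W.J (u + 1) : ℤ) : ZMod S.N)) := by
  classical
  obtain ⟨C, U, hC, hU0, hwin, hend, htube, hU, hch, htb⟩ := S.stage1 W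
  obtain ⟨π, hπ, hsupp⟩ := (Finset.univ.filter fun g => g = W.a 0 ∨ g ∉ U).exists_cycleOn
  obtain ⟨i1, hi1⟩ : ∃ i1, i1 = i0 + S.hm + 1 := ⟨_, rfl⟩
  obtain ⟨i2, hi2⟩ : ∃ i2, i2 = i1 + 8 * S.w * S.M := ⟨_, rfl⟩
  obtain ⟨h12, Q, p, q1, q2, q3, q4⟩ := (hi2 ▸ real_all i1 π : S.Real i1 i2 π).extract
  have hk := S.hk
  have hw := S.hw
  have hN := S.N_eq
  have k0 := S.k0
  obtain ⟨lo, hlo⟩ : ∃ lo, lo = 3 * (i0 - S.hm) := ⟨_, rfl⟩
  have hbig : 3 * i2 + 3 < lo + S.N := by omega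
  have inj : ∀ {j j' : ℤ}, lo ≤ j → j < lo + S.N → lo ≤ j' → j' < lo + S.N →
      (j : ZMod S.N) = j' → j = j' := fun a b c d e => S.cast_inj (by rw [abs_lt]; omega) e
  let CR : Set S.V := {v | ∃ i, i1 ≤ i ∧ i < i2 ∧ v.1 ∈ Q i ∧ v.2 = ((3 * i + 1 : ℤ) : ZMod S.N)}
  have notC : ∀ g (j : ℤ), 3 * i1 - 1 ≤ j → j < lo + S.N → (g, (j : ZMod S.N)) ∉ C := by
    intro g j h1 h2 h
    obtain ⟨j', a1, a2, a3⟩ := hwin _ h
    have := inj (by omega) h2 (by omega) (by omega) a3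
    omega
  have memR : ∀ g (j : ℤ), lo ≤ j → j < lo + S.N → ((g, (j : ZMod S.N)) ∈ CR ↔
      ∃ i, i1 ≤ i ∧ i < i2 ∧ g ∈ Q i ∧ j = 3 * i + 1) := by
    intro g j h1 h2
    constructor
    · rintro ⟨i, a1, a2, a3, a4⟩
      exact ⟨i, a1, a2, a3, inj h1 h2 (by omega) (by omega) a4⟩
    · rintro ⟨i, a1, a2, a3, rfl⟩
      exact ⟨i, a1, a2, a3, rfl⟩
  have hb1 : ∀ i : ℤ, bar (3 * i + 1) = 3 * i + 1 + 1 := fun i => by
    rcases bar_cases (3 * i + 1) with h | h | h <;> omega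
  have hval : S.T.Valid (C ∪ CR) := by
    constructor
    · rintro v (h | h) (h' | h')
      · exact hC.sep v h h'
      · obtain ⟨j, a1, a2, a3⟩ := hwin _ h
        obtain ⟨g, x⟩ := v
        obtain rfl : x = j := a3
        rw [nx_cast, memR _ _ (by omega) (by omega)] at h'
        obtain ⟨i, b1, b2, -, b3⟩ := h'
        omega
      · obtain ⟨g, x⟩ := v
        obtain ⟨i, a1, a2, -, (rfl : x = _)⟩ := h
        rw [nx_cast] at h'
        exact notC _ _ (by omega) (by omega) h'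
      · obtain ⟨g, x⟩ := v
        obtain ⟨i, a1, a2, -, (rfl : x = _)⟩ := h
        rw [nx_cast, memR _ _ (by omega) (by omega)] at h'
        obtain ⟨i', b1, b2, -, b3⟩ := h'
        omega
    · intro v hv
      rw [Tube.endp_union] at hv ⊢
      rcases hv with hv | hv | hv
      · exact Or.inl (hC.cl v hv)
      · obtain ⟨g, x⟩ := v
        obtain ⟨i, a1, a2, a3, (rfl : x = _)⟩ := hv
        refine Or.inr (Or.inr ⟨i, a1, a2, ?_, ?_⟩)
        · rw [T_ch, nx_symm_cast]; exact (q1 i g).2 a3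
        · rw [T_ch, nx_symm_cast, hb1, add_sub_cancel_right]
      · obtain ⟨⟨g, x⟩, rfl⟩ := S.T.nx.surjective v
        rw [Equiv.symm_apply_apply] at hv
        obtain ⟨i, a1, a2, a3, (rfl : x = _)⟩ := hv
        refine Or.inr (Or.inl ⟨i, a1, a2, ?_, ?_⟩)
        · rw [nx_cast, ← hb1, T_ch, gam_bar, ← q1]; simpa using a3
        · rw [nx_cast, ← hb1, T_ch, bar_bar]
  have tb : ∀ g (j : ℤ), 3 * i1 ≤ j → j < lo + S.N → (j % 3 = 1 → g ∉ Q (j / 3)) →
      (S.T.F (C ∪ CR)).Reachable (g, (j : ZMod S.N)) (g, ((j + 1 : ℤ) : ZMod S.N)) := by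
    intro g j h1 h2 h3
    rw [← nx_cast]
    refine (S.T.F_nx ?_).reachable
    rintro (h | h)
    · exact notC _ _ (by omega) h2 h
    · rw [memR _ _ (by omega) h2] at h
      obtain ⟨i, b1, b2, b3, rfl⟩ := h
      exact h3 (by omega) (by rwa [show (3 * i + 1) / 3 = i by omega])
  have strand : ∀ i, i1 ≤ i → i ≤ i2 → ∀ b, (S.T.F (C ∪ CR)).Reachable
      (b, ((3 * i1 : ℤ) : ZMod S.N)) (p i b, ((3 * i : ℤ) : ZMod S.N)) := by
    intro i hi
    induction i, hi using Int.leInduction with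
    | base => intro _ b; rw [q2]; rfl
    | succ i hi ih =>
      intro h b
      refine ((ih (by omega) b).trans (tb _ (3 * i) (by omega) (by omega) (by omega))).trans ?_
      have last := tb (p (i + 1) b) (3 * i + 1 + 1) (by omega) (by omega) (by omega)
      rw [show 3 * i + 1 + 1 + 1 = 3 * (i + 1) by ring] at last
      refine SimpleGraph.Reachable.trans ?_ last
      by_cases hq : p i b ∈ Q i
      · rw [(q4 i hi (by omega) b).1 hq, ← hb1, ← T_ch]
        exact (S.T.F_ch hval (Or.inl (Or.inr ⟨i, hi, by omega, hq, rfl⟩))).reachable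
      · rw [(q4 i hi (by omega) b).2 hq]
        exact tb _ _ (by omega) (by omega) (fun _ => by rwa [show (3 * i + 1) / 3 = i by omega])
  let r : S.V → S.V := fun v => if ∃ j : ℤ, 3 * i1 ≤ j ∧ j < 3 * i2 ∧ v.2 = j
    then (v.1, ((3 * i1 : ℤ) : ZMod S.N)) else v
  have r_in : ∀ g (j : ℤ), 3 * i1 ≤ j → j < 3 * i2 →
      r (g, (j : ZMod S.N)) = (g, ((3 * i1 : ℤ) : ZMod S.N)) :=
    fun g j h1 h2 => if_pos ⟨j, h1, h2, rfl⟩
  have r_out : ∀ g (j : ℤ), lo ≤ j → j ≤ lo + S.N → (j ≤ 3 * i1 ∨ 3 * i2 ≤ j) →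
      r (g, (j : ZMod S.N)) = (g, (j : ZMod S.N)) := by
    intro g j h1 h2 h3
    simp only [r]
    split_ifs with h
    · obtain ⟨j', a1, a2, a3⟩ := h
      have := S.cast_inj (by rw [abs_lt]; omega) a3
      rw [show 3 * i1 = j by omega]
    · rfl
  have hmerge : ∀ x y, (S.T.F C).Reachable x y → (S.T.F (C ∪ CR)).Reachable (r x) (r y) := by
    intro x y h
    refine S.T.merge hC (fun v => if v.1 ∈ U then none else some v.1) (fun v => rfl) ?_
      {v | v.2 = ((3 * i2 - 1 : ℤ) : ZMod S.N) ∧ (v.1 = W.a 0 ∨ v.1 ∉ U)} ?_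
      (fun x y => (S.T.F (C ∪ CR)).Reachable (r x) (r y))
      ⟨fun _ => SimpleGraph.Reachable.refl _, fun h => h.symm, fun h h' => h.trans h'⟩ ?_ ?_ h
    · intro v hv
      simp only [(hend v hv).1, (hend _ (hC.cl v hv)).1, if_true]
    · rintro ⟨g, x⟩ ⟨a1, a2⟩ ⟨g', x'⟩ ⟨b1, b2⟩ e
      dsimp only at a1 a2 b1 b2 e
      rw [a1, b1]
      congr 1
      by_cases c1 : g ∈ U <;> by_cases c2 : g' ∈ U
      · rw [a2.resolve_right (not_not.2 c1), b2.resolve_right (not_not.2 c2)]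
      · simp [c1, c2] at e
      · simp [c1, c2] at e
      · simpa [c1, c2] using e
    · rintro ⟨g, x⟩ h1 h2
      obtain ⟨j, a1, a2, rfl⟩ := S.exists_rep lo x
      rw [nx_cast]
      by_cases c1 : 3 * i1 ≤ j ∧ j < 3 * i2
      · by_cases c2 : j + 1 < 3 * i2
        · rw [r_in _ _ c1.1 c1.2, r_in _ _ (by omega) c2]
        · obtain rfl : j = 3 * i2 - 1 := by omega
          have hg : π g = g := by
            by_contra hne
            have := hsupp (Perm.mem_support.2 hne)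
            exact h2 ⟨rfl, by simpa using this⟩
          rw [r_in _ _ c1.1 c1.2, sub_add_cancel, r_out _ _ (by omega) (by omega) (by omega)]
          have := strand i2 h12 le_rfl g
          rwa [q3, hg] at this
      · rw [r_out _ _ a1 a2.le (by omega), r_out _ _ (by omega) (by omega) (by omega), ← nx_cast]
        refine (S.T.F_nx ?_).reachable
        rintro (h | h)
        · exact h1 h
        · rw [memR _ _ a1 a2] at h
          obtain ⟨i, b1, b2, -, b3⟩ := h
          omega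
    · intro v hv
      have key : ∀ v, S.T.endp C v → r v = v := by
        rintro ⟨g, x⟩ hv
        obtain ⟨-, j, a1, a2, (rfl : x = _)⟩ := hend _ hv
        exact r_out _ _ (by omega) (by omega) (by omega)
      rw [key v hv, key _ (hC.cl v hv)]
      exact (S.T.F_ch hval ((S.T.endp_union _ _ _).2 (Or.inl hv))).reachable
  have rL : ∀ g, r (g, ((3 * i1 : ℤ) : ZMod S.N)) = (g, ((3 * i1 : ℤ) : ZMod S.N)) :=
    fun g => r_out _ _ (by omega) (by omega) (by omega)
  have out : ∀ g (j : ℤ), lo ≤ j → j ≤ lo + S.N → (j ≤ 3 * i1 ∨ 3 * i2 ≤ j) →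
      (S.T.F (C ∪ CR)).Reachable (g, ((3 * i1 : ℤ) : ZMod S.N)) (g, (j : ZMod S.N)) := by
    intro g j h1 h2 h3
    have := hmerge _ _ (htube g ((3 * i1 : ℤ) : ZMod S.N) j)
    rwa [rL, r_out _ _ h1 h2 h3] at this
  have hLπ : ∀ b, (S.T.F (C ∪ CR)).Reachable (b, ((3 * i1 : ℤ) : ZMod S.N))
      (π b, ((3 * i1 : ℤ) : ZMod S.N)) := by
    intro b
    have := strand i2 h12 le_rfl b
    rw [q3] at this
    exact this.trans (out _ _ (by omega) (by omega) (by omega)).symm
  have hL : ∀ g, (S.T.F (C ∪ CR)).Reachable (W.a 0, ((3 * i1 : ℤ) : ZMod S.N))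
      (g, ((3 * i1 : ℤ) : ZMod S.N)) := by
    intro g
    by_cases hg : g ∈ U
    · have := hmerge _ _ (hU g hg ((3 * i1 : ℤ) : ZMod S.N))
      rwa [rL, rL] at this
    · obtain ⟨n, -, rfl⟩ := hπ.exists_pow_eq (a := W.a 0) (b := g) (by simp) (by simp [hg])
      clear hg
      induction n with
      | zero => rfl
      | succ n ih => rw [pow_succ', Perm.mul_apply]; exact ih.trans (hLπ _)
  have hR : ∀ g i, i1 ≤ i → i ≤ i2 → (S.T.F (C ∪ CR)).Reachable
      (W.a 0, ((3 * i1 : ℤ) : ZMod S.N)) (g, ((3 * i : ℤ) : ZMod S.N)) := by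
    intro g i h1 h2
    obtain ⟨b, rfl⟩ := (p i).surjective g
    exact (hL b).trans (strand i h1 h2 b)
  have hall : ∀ v, (S.T.F (C ∪ CR)).Reachable (W.a 0, ((3 * i1 : ℤ) : ZMod S.N)) v := by
    rintro ⟨g, x⟩
    obtain ⟨j, a1, a2, rfl⟩ := S.exists_rep lo x
    by_cases c1 : j ≤ 3 * i1 ∨ 3 * i2 ≤ j
    · exact (hL g).trans (out g j a1 a2.le c1)
    · obtain ⟨i, hi⟩ : ∃ i, j = 3 * i ∨ j = 3 * i + 1 ∨ j + 1 = 3 * i :=
        by_cases (fun h : j % 3 = 2 => ⟨j / 3 + 1, by omega⟩) (fun h => ⟨j / 3, by omega⟩)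
      rcases hi with rfl | rfl | hi
      · exact hR g i (by omega) (by omega)
      · exact (hR g i (by omega) (by omega)).trans (tb _ _ (by omega) (by omega) (by omega))
      · have := tb g j (by omega) a2 (by omega)
        rw [hi] at this
        exact (hR g i (by omega) (by omega)).trans this.symm
  refine ⟨C ∪ CR, hval, fun x y => (hall x).symm.trans (hall y), fun u hu => ?_⟩
  rcases W.st u hu with e | e
  · rw [e.2.1, e.2.2, ← T_ch]
    exact S.T.F_ch hval ((S.T.endp_union _ _ _).2 (Or.inl (hch u hu e.1)))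
  · have r1 := W.rng u hu.le
    have r2 := W.rng (u + 1) hu
    rw [abs_le] at r1 r2
    have h1 : (W.a u, ((min (W.J u) (W.J (u + 1)) : ℤ) : ZMod S.N)) ∉ C ∪ CR := by
      rintro (h | h)
      · exact htb u hu (by omega) h
      · rw [memR _ _ (by omega) (by omega)] at h
        obtain ⟨i, b1, b2, -, b3⟩ := h
        omega
    have h2 := S.T.F_nx h1
    rw [nx_cast] at h2
    rw [e.2.1]
    rcases e.1 with h | h
    · rwa [show min (W.J u) (W.J (u + 1)) = W.J u by omega,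
        show W.J u + 1 = W.J (u + 1) by omega] at h2
    · rw [show min (W.J u) (W.J (u + 1)) = W.J (u + 1) by omega,
        show W.J (u + 1) + 1 = W.J u by omega] at h2
      exact h2.symm

end Setup

end Pool.Agent.Lib.MP_8cd3bd_co
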