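import Mathlib

set_option autoImplicit false

open Equiv Equiv.Perm
open scoped Pointwise

namespace Pool.Agent.Lib.MP_8cd3bd_co

theorem commutator_eq {α : Type} [DecidableEq α] (a b : Perm α) (g : α)
    (h : ∀ x, a x ≠ x → b x ≠ x → x = g) (ha : a g ≠ g) (hb : b g ≠ g) :
    a * b * a⁻¹ * b⁻¹ = swap g (b g) * swap g (a g) ∧ b g ≠ a g := by
  have hp : b (a g) = a g := by
    by_contra hh
    exact ha (h _ (fun e => ha (a.injective e)) hh)
  have hq : a (b g) = b g := by
    by_contra hh
    exact hb (h _ hh (fun e => hb (b.injective e)))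
  have hpq : b g ≠ a g := fun e => hb (b.injective (by rw [e, hp]))
  refine ⟨?_, hpq⟩
  have key : a * b = swap g (b g) * swap g (a g) * b * a := by
    ext x
    simp only [Perm.mul_apply]
    by_cases h1 : x = g
    · subst h1
      rw [hq, hp, swap_apply_right, swap_apply_left]
    · by_cases h2 : a x = x
      · rw [h2]
        by_cases h3 : b x = g
        · rw [h3, swap_apply_left, swap_apply_of_ne_of_ne ha hpq.symm]
        · have e1 : b x ≠ a g := fun e => by
            have : x = a g := b.injective (by rw [e, hp])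
            exact ha (a.injective (by rw [← this, h2]))
          have e2 : b x ≠ b g := fun e => h1 (b.injective e)
          rw [swap_apply_of_ne_of_ne h3 e1, swap_apply_of_ne_of_ne h3 e2]
          by_cases h4 : b x = x
          · rw [h4, h2]
          · by_contra hh
            exact h3 (h _ hh (fun e => h4 (b.injective e)))
      · have h3 : b x = x := by
          by_contra hh
          exact h1 (h _ h2 hh)
        rw [h3]
        by_cases h4 : a x = g
        · rw [h4, swap_apply_of_ne_of_ne hb hpq, swap_apply_right]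
        · have h5 : b (a x) = a x := by
            by_contra hh
            exact h4 (h _ (fun e => h2 (a.injective e)) hh)
          have e1 : a x ≠ a g := fun e => h1 (a.injective e)
          have e2 : a x ≠ b g := fun e => h4 (b.injective (by rw [h5, e]))
          rw [h5, swap_apply_of_ne_of_ne h4 e1, swap_apply_of_ne_of_ne h4 e2]
  rw [key]
  group

variable {Γ : Type} [Group Γ]

/-- `σ` multiplies by `c` on a union of cosets of the powers of `c` and fixes the rest. -/
def RingStep (c : Γ) (σ : Perm Γ) : Prop :=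
  ∃ S : Set Γ, (∀ a, a * c ∈ S ↔ a ∈ S) ∧ (∀ a ∈ S, σ a = a * c) ∧ ∀ a, a ∉ S → σ a = a

theorem ring_mem (g c a : Γ) :
    g⁻¹ * (a * c) ∈ Subgroup.zpowers c ↔ g⁻¹ * a ∈ Subgroup.zpowers c := by
  rw [← mul_assoc]
  exact Subgroup.mul_mem_cancel_right _ (Subgroup.mem_zpowers c)

open Classical in
noncomputable def ringPerm (g c : Γ) : Perm Γ where
  toFun a := if g⁻¹ * a ∈ Subgroup.zpowers c then a * c else a
  invFun a := if g⁻¹ * a ∈ Subgroup.zpowers c then a * c⁻¹ else a
  left_inv a := by
    by_cases h : g⁻¹ * a ∈ Subgroup.zpowers c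
    · simp [h, ring_mem]
    · simp [h]
  right_inv a := by
    by_cases h : g⁻¹ * a ∈ Subgroup.zpowers c
    · have : g⁻¹ * (a * c⁻¹) ∈ Subgroup.zpowers c := by
        rw [← ring_mem]; simpa using h
      simp [h, this]
    · simp [h]

theorem ringPerm_pos {g c a : Γ} (h : g⁻¹ * a ∈ Subgroup.zpowers c) : ringPerm g c a = a * c :=
  if_pos h

theorem ringPerm_neg {g c a : Γ} (h : g⁻¹ * a ∉ Subgroup.zpowers c) : ringPerm g c a = a :=
  if_neg h

theorem ringStep_ringPerm (g c : Γ) : RingStep c (ringPerm g c) :=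
  ⟨{a | g⁻¹ * a ∈ Subgroup.zpowers c}, ring_mem g c, fun _ h => ringPerm_pos h,
    fun _ h => ringPerm_neg h⟩

theorem ringPerm_pow (c : Γ) (n : ℕ) : (ringPerm 1 c ^ n) 1 = c ^ n := by
  induction n with
  | zero => simp
  | succ n ih =>
    rw [pow_succ', Perm.mul_apply, ih, ringPerm_pos, pow_succ]
    simp

theorem sign_ringPerm [Fintype Γ] [DecidableEq Γ] (c : Γ) (hc : ∀ n : ℕ, c ^ n = 1 → Even n) :
    sign (ringPerm 1 c) = -1 := by
  have hc1 : c ≠ 1 := fun h => by simpa using hc 1 (by simp [h])
  have hcyc : IsCycle (ringPerm 1 c) := by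
    refine ⟨1, ?_, fun y hy => ?_⟩
    · rw [ringPerm_pos (by simp)]; simpa using hc1
    · have : (1 : Γ)⁻¹ * y ∈ Subgroup.zpowers c := by
        by_contra h
        exact hy (ringPerm_neg h)
      rw [inv_one, one_mul, mem_zpowers_iff_mem_range_orderOf, Finset.mem_image] at this
      obtain ⟨n, -, rfl⟩ := this
      exact ⟨n, by rw [zpow_natCast, ringPerm_pow]⟩
  rw [hcyc.sign, ← hcyc.orderOf]
  have : Even (orderOf (ringPerm 1 c)) := hc _ (by
    rw [← ringPerm_pow, pow_orderOf_eq_one]; rfl)
  rw [this.neg_one_pow]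

theorem closure_ringStep [Fintype Γ] [DecidableEq Γ] {I : Type} [Nonempty I] (c d : I → Γ)
    (hgen : Subgroup.closure (Set.range c ∪ Set.range d) = ⊤) (hc : ∀ i, c i ≠ 1)
    (hd : ∀ i (n : ℕ), d i ^ n = 1 → Even n)
    (hcd : ∀ i x, x ∈ Subgroup.zpowers (c i) → x ∈ Subgroup.zpowers (d i) → x = 1) :
    Subgroup.closure {σ : Perm Γ | ∃ i, RingStep (c i) σ ∨ RingStep (d i) σ} = ⊤ := by
  set H := Subgroup.closure {σ : Perm Γ | ∃ i, RingStep (c i) σ ∨ RingStep (d i) σ} with hH
  have hd1 : ∀ i, d i ≠ 1 := fun i h => by simpa using hd i 1 (by simp [h])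
  have hcomm : ∀ i g, swap g (g * d i) * swap g (g * c i) ∈ H ∧ g * d i ≠ g * c i := by
    intro i g
    have ea : ringPerm g (c i) g = g * c i := ringPerm_pos (by simp)
    have eb : ringPerm g (d i) g = g * d i := ringPerm_pos (by simp)
    have := commutator_eq (ringPerm g (c i)) (ringPerm g (d i)) g (fun x h1 h2 => by
      have a1 : g⁻¹ * x ∈ Subgroup.zpowers (c i) := by
        by_contra h; exact h1 (ringPerm_neg h)
      have a2 : g⁻¹ * x ∈ Subgroup.zpowers (d i) := by
        by_contra h; exact h2 (ringPerm_neg h)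
      exact (inv_mul_eq_one.1 (hcd i _ a1 a2)).symm)
      (by rw [ea]; simpa using hc i) (by rw [eb]; simpa using hd1 i)
    rw [ea, eb] at this
    refine ⟨?_, this.2⟩
    rw [← this.1]
    have m1 : ringPerm g (c i) ∈ H := Subgroup.subset_closure ⟨i, Or.inl (ringStep_ringPerm _ _)⟩
    have m2 : ringPerm g (d i) ∈ H := Subgroup.subset_closure ⟨i, Or.inr (ringStep_ringPerm _ _)⟩
    exact H.mul_mem (H.mul_mem (H.mul_mem m1 m2) (H.inv_mem m1)) (H.inv_mem m2)
  let τ : I → Γ → Perm Γ := fun i g => swap g (g * d i) * swap g (g * c i)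
  have h3 : ∀ i g, IsThreeCycle (τ i g) := fun i g =>
    isThreeCycle_swap_mul_swap_same (by simpa using hd1 i) (by simpa using hc i) (hcomm i g).2
  let T : Subgroup (Perm Γ) := Subgroup.closure {σ | ∃ i g, σ = τ i g}
  have hTH : T ≤ H := by
    rw [Subgroup.closure_le]
    rintro _ ⟨i, g, rfl⟩
    exact (hcomm i g).1
  have hτ : ∀ i g, τ i g ∈ T := fun i g => Subgroup.subset_closure ⟨i, g, rfl⟩
  let O : Subgroup Γ :=
    { carrier := {a | ∀ g, ∃ t ∈ T, t g = g * a}
      mul_mem' := by
        intro a b ha hb g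
        obtain ⟨t, ht, e⟩ := ha g
        obtain ⟨t', ht', e'⟩ := hb (g * a)
        exact ⟨t' * t, T.mul_mem ht' ht, by rw [Perm.mul_apply, e, e', mul_assoc]⟩
      one_mem' := fun g => ⟨1, T.one_mem, by simp⟩
      inv_mem' := by
        intro a ha g
        obtain ⟨t, ht, e⟩ := ha (g * a⁻¹)
        refine ⟨t⁻¹, T.inv_mem ht, ?_⟩
        rw [Perm.inv_eq_iff_eq, e]; simp }
  have hO : ∀ a, a ∈ O := by
    have : ⊤ ≤ O := by
      rw [← hgen, Subgroup.closure_le]
      rintro _ (⟨i, rfl⟩ | ⟨i, rfl⟩) g
      · refine ⟨τ i g, hτ i g, ?_⟩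
        simp only [τ, Perm.mul_apply, swap_apply_left]
        exact swap_apply_of_ne_of_ne (by simpa using hc i) (hcomm i g).2.symm
      · refine ⟨(τ i g)⁻¹, T.inv_mem (hτ i g), ?_⟩
        rw [Perm.inv_eq_iff_eq]
        simp only [τ, Perm.mul_apply]
        rw [swap_apply_of_ne_of_ne (by simpa using hd1 i) (hcomm i g).2, swap_apply_right]
    exact fun a => this (Subgroup.mem_top a)
  have htr : ∀ x y : Γ, ∃ t ∈ T, t x = y := by
    intro x y
    simpa using hO (x⁻¹ * y) x
  have hprim : MulAction.IsPreprimitive T Γ := by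
    refine { exists_smul_eq := fun x y => ?_, isTrivialBlock_of_isBlock := fun {B} hB => ?_ }
    · obtain ⟨t, ht, e⟩ := htr x y
      exact ⟨⟨t, ht⟩, e⟩
    · by_cases hs : B.Subsingleton
      · exact Or.inl hs
      · right
        obtain ⟨x, hx, y, hy, hxy⟩ := Set.not_subsingleton_iff.1 hs
        have hst : T ≤ MulAction.stabilizer (Perm Γ) B := by
          rw [Subgroup.closure_le]
          rintro _ ⟨i, g, rfl⟩
          rcases hB.smul_eq_or_disjoint ⟨τ i g, hτ i g⟩ with h | h
          · exact h
          · exfalso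
            have n1 : τ i g x ∉ B := Set.disjoint_left.1 h ⟨x, hx, rfl⟩
            have n2 : τ i g y ∉ B := Set.disjoint_left.1 h ⟨y, hy, rfl⟩
            have s1 : x ∈ (τ i g).support := by
              rw [mem_support]; intro e; exact n1 (e.symm ▸ hx)
            have s2 : y ∈ (τ i g).support := by
              rw [mem_support]; intro e; exact n2 (e.symm ▸ hy)
            have hsub : ({x, y, τ i g x, τ i g y} : Finset Γ) ⊆ (τ i g).support := by
              intro z hz
              simp only [Finset.mem_insert, Finset.mem_singleton] at hz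
              rcases hz with rfl | rfl | rfl | rfl
              · exact s1
              · exact s2
              · exact apply_mem_support.2 s1
              · exact apply_mem_support.2 s2
            have hcard := Finset.card_le_card hsub
            rw [(h3 i g).card_support] at hcard
            have e1 : x ≠ τ i g x := fun e => n1 (e ▸ hx)
            have e2 : x ≠ τ i g y := fun e => n2 (e ▸ hx)
            have e3 : y ≠ τ i g x := fun e => n1 (e ▸ hy)
            have e4 : y ≠ τ i g y := fun e => n2 (e ▸ hy)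
            have e5 : τ i g x ≠ τ i g y := fun e => hxy ((τ i g).injective e)
            rw [Finset.card_insert_of_notMem (by simp [hxy, e1, e2]),
              Finset.card_insert_of_notMem (by simp [e3, e4]), Finset.card_pair e5] at hcard
            omega
        rw [Set.eq_univ_iff_forall]
        intro z
        obtain ⟨t, ht, e⟩ := htr x z
        have := MulAction.mem_stabilizer_iff.1 (hst ht)
        rw [← this]
        exact ⟨x, hx, e⟩
  obtain ⟨i⟩ := ‹Nonempty I›
  have halt : alternatingGroup Γ ≤ H :=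
    (alternatingGroup_le_of_isPreprimitive_of_isThreeCycle_mem hprim (h3 i 1) (hτ i 1)).trans hTH
  have m2 : ringPerm 1 (d i) ∈ H := Subgroup.subset_closure ⟨i, Or.inr (ringStep_ringPerm _ _)⟩
  rw [eq_top_iff]
  intro π _
  rcases Int.units_eq_one_or (sign π) with h | h
  · exact halt (mem_alternatingGroup.2 h)
  · have : π * ringPerm 1 (d i) ∈ H := halt (mem_alternatingGroup.2 (by
      rw [map_mul, h, sign_ringPerm _ (hd i)]; simp))
    exact (H.mul_mem_cancel_right m2).1 this

theorem exists_bounded_lists {G : Type} [Group G] [Finite G] (S : Set G)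
    (h : Subgroup.closure S = ⊤) :
    ∃ n : ℕ, ∀ g : G, ∃ L : List G, L.length ≤ n ∧ (∀ x ∈ L, x ∈ S) ∧ L.prod = g := by
  have : ∀ g : G, ∃ L : List G, (∀ x ∈ L, x ∈ S) ∧ L.prod = g := by
    intro g
    apply Submonoid.exists_list_of_mem_closure
    rw [← Subgroup.closure_toSubmonoid_of_finite, h]
    trivial
  choose L hL using this
  obtain ⟨n, hn⟩ := (Set.finite_range fun g => (L g).length).bddAbove
  exact ⟨n, fun g => ⟨L g, hn ⟨g, rfl⟩, hL g⟩⟩

end Pool.Agent.Lib.MP_8cd3bd_co
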