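import Pool.Agent.Lib.MP_8cd3bd_co.Geom
import Pool.Agent.Lib.MP_8cd3bd_co.Graph
import Pool.Agent.Lib.MP_8cd3bd_co.Perms

set_option autoImplicit false

open Equiv

namespace Pool.Agent.Lib.MP_8cd3bd_co

/-- All parameters of the construction. -/
structure Setup (k : ℤ) where
  w : ℕ
  R : ℕ
  N : ℕ
  hm : ℤ
  B : ℤ
  M : ℤ
  D : Data (ZMod (4 * w)) R
  k0 : 0 ≤ k
  hw : 2 * hm < w
  hk : 2 * k + 3 ≤ hm
  hB : 16 * hm + 4 ≤ B
  hR : 3 * ((3 * B + 1) * B + 1 + k + B) ≤ R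
  hN : (N : ℤ) = 24 * w * (M + 1)
  M0 : 0 ≤ M
  real : ∀ π : Perm D.Γ, ∃ L : List (Perm D.Γ), (L.length : ℤ) ≤ M ∧
    (∀ σ ∈ L, ∃ i : ℤ, RingStep (gam D (3 * i + 1)) σ) ∧ L.prod = π

namespace Setup

variable {k : ℤ} (S : Setup k)

theorem w_pos : 0 < S.w := by have := S.hw; have := S.hk; have := S.k0; omega

theorem B_nonneg : 0 ≤ S.B := by have := S.hB; have := S.hk; have := S.k0; omega

theorem R6 : 6 * S.B ≤ S.R := by
  have h1 := S.hR
  have h2 := S.B_nonneg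
  have h3 := S.k0
  nlinarith [mul_self_nonneg S.B]

theorem R3 : 3 ≤ S.R := by
  have := S.R6; have := S.hB; have := S.hk; have := S.k0; omega

theorem N_eq : (S.N : ℤ) = 3 * (8 * S.w * S.M) + 24 * S.w := by rw [S.hN]; ring

theorem wM : (0 : ℤ) ≤ 8 * S.w * S.M := by have := S.M0; positivity

theorem N_big : 24 * (S.w : ℤ) ≤ S.N := by have := S.N_eq; have := S.wM; omega

instance : NeZero S.N := ⟨by have := S.N_big; have := S.w_pos; omega⟩

abbrev V := S.D.Γ × ZMod S.N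

def ch (v : S.V) : S.V := (v.1 * gam S.D (v.2.val : ℤ), ((bar (v.2.val : ℤ) : ℤ) : ZMod S.N))

theorem ch_cast (g : S.D.Γ) (j : ℤ) :
    S.ch (g, (j : ZMod S.N)) = (g * gam S.D j, ((bar j : ℤ) : ZMod S.N)) := by
  have h : (((j : ZMod S.N).val : ℕ) : ℤ) = j + 24 * S.w * (-(S.M + 1) * (j / S.N)) := by
    rw [ZMod.val_intCast, Int.emod_def]
    nth_rewrite 1 [S.hN]
    ring
  unfold ch
  simp only [h, gam_add, bar_add]
  congr 1
  rw [ZMod.intCast_eq_intCast_iff_dvd_sub]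
  exact ⟨j / S.N, by nth_rewrite 2 [S.hN]; ring⟩

theorem cast_inj {j j' : ℤ} (h : |j - j'| < S.N) (e : (j : ZMod S.N) = j') : j = j' := by
  rw [ZMod.intCast_eq_intCast_iff_dvd_sub] at e
  have := Int.eq_zero_of_abs_lt_dvd e (by rwa [abs_sub_comm])
  omega

theorem exists_rep (lo : ℤ) (x : ZMod S.N) : ∃ j : ℤ, lo ≤ j ∧ j < lo + S.N ∧ x = j := by
  refine ⟨lo + ((x - lo).val : ℤ), by omega, ?_, by simp⟩
  have := ZMod.val_lt (x - (lo : ZMod S.N))
  omega

def T : Tube S.V where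
  nx := Equiv.prodCongr (Equiv.refl _) (Equiv.addRight 1)
  ch := S.ch
  ch_ch := by
    rintro ⟨g, x⟩
    obtain ⟨j, -, -, rfl⟩ := S.exists_rep 0 x
    rw [ch_cast, ch_cast, gam_bar, bar_bar]; simp
  nx_ne := by
    rintro ⟨g, x⟩ h
    have h1 : ((1 : ℤ) : ZMod S.N) = (0 : ℤ) := by simpa using h
    have := S.N_big
    have := S.w_pos
    have := S.cast_inj (by simp; omega) h1
    omega
  nx_nx_ne := by
    rintro ⟨g, x⟩ h
    have h0 : x + 1 + 1 = x := by simpa using h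
    have h1 : ((2 : ℤ) : ZMod S.N) = (0 : ℤ) := by
      push_cast; linear_combination h0
    have := S.N_big
    have := S.w_pos
    have := S.cast_inj (by simp; omega) h1
    omega
  ch_ne := by
    rintro ⟨g, x⟩ h
    exact gam_ne_one S.D S.w_pos S.R3 _ (by simpa [ch] using congrArg Prod.fst h)
  ch_ne_nx := by
    rintro ⟨g, x⟩ h
    exact gam_ne_one S.D S.w_pos S.R3 _ (by simpa [ch] using congrArg Prod.fst h)

theorem nx_cast (g : S.D.Γ) (j : ℤ) :
    S.T.nx (g, (j : ZMod S.N)) = (g, ((j + 1 : ℤ) : ZMod S.N)) := by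
  simp [T]

theorem nx_symm_cast (g : S.D.Γ) (j : ℤ) :
    S.T.nx.symm (g, (j : ZMod S.N)) = (g, ((j - 1 : ℤ) : ZMod S.N)) := by
  rw [Equiv.symm_apply_eq, nx_cast]; simp

theorem nx_fst (v : S.V) : (S.T.nx v).1 = v.1 := rfl

theorem T_ch (g : S.D.Γ) (j : ℤ) :
    S.T.ch (g, (j : ZMod S.N)) = (g * gam S.D j, ((bar j : ℤ) : ZMod S.N)) := S.ch_cast g j

theorem tube_reach (g : S.D.Γ) (x y : ZMod S.N) : (S.T.F ∅).Reachable (g, x) (g, y) := by
  have : ∀ n : ℕ, (S.T.F ∅).Reachable (g, x) (g, x + n) := by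
    intro n
    induction n with
    | zero => simp
    | succ n ih =>
      refine ih.trans ?_
      have := (S.T.F_nx (C := ∅) (v := (g, x + n)) (by simp)).reachable
      simpa [T, add_assoc] using this
  simpa using this (y - x).val

section
variable {i0 h : ℤ} (l : Line S.D i0 h S.B)

def lineCut : Set S.V := {v | ∃ m, v = (l.z m, ((l.cp m : ℤ) : ZMod S.N))}

theorem line_endp (v : S.V) : S.T.endp (S.lineCut l) v ↔
    ∃ m, v = (l.z m, ((l.ω m : ℤ) : ZMod S.N)) ∨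
      v = (l.z m, ((bar (l.ω (m - 1)) : ℤ) : ZMod S.N)) := by
  constructor
  · rintro (⟨m, e⟩ | ⟨m, e⟩)
    · refine ⟨m, ?_⟩
      rw [e]; unfold Line.cp
      rcases min_choice (bar (l.ω (m - 1))) (l.ω m) with h | h <;> simp [h]
    · refine ⟨m, ?_⟩
      rw [Equiv.symm_apply_eq, nx_cast] at e
      have : l.cp m + 1 = l.ω m ∨ l.cp m + 1 = bar (l.ω (m - 1)) := by
        have := l.alt' m; unfold Line.cp; omega
      rw [e]
      rcases this with h | h <;> simp [h]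
  · rintro ⟨m, rfl | rfl⟩
    · have : l.cp m = l.ω m ∨ l.cp m = l.ω m - 1 := by
        have := l.alt' m; unfold Line.cp; omega
      rcases this with h | h
      · exact Or.inl ⟨m, by rw [h]⟩
      · exact Or.inr ⟨m, by rw [nx_symm_cast, h]⟩
    · have : l.cp m = bar (l.ω (m - 1)) ∨ l.cp m = bar (l.ω (m - 1)) - 1 := by
        have := l.alt' m; unfold Line.cp; omega
      rcases this with h | h
      · exact Or.inl ⟨m, by rw [h]⟩
      · exact Or.inr ⟨m, by rw [nx_symm_cast, h]⟩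

theorem line_ch (m : ℤ) : S.T.ch (l.z m, ((l.ω m : ℤ) : ZMod S.N)) =
    (l.z (m + 1), ((bar (l.ω (m + 1 - 1)) : ℤ) : ZMod S.N)) := by
  rw [T_ch, l.step, add_sub_cancel_right]

theorem line_cl (v : S.V) (hv : S.T.endp (S.lineCut l) v) :
    S.T.endp (S.lineCut l) (S.T.ch v) := by
  rw [line_endp] at hv ⊢
  obtain ⟨m, rfl | rfl⟩ := hv
  · exact ⟨m + 1, Or.inr (S.line_ch l m)⟩
  · refine ⟨m - 1, Or.inl ?_⟩
    have := S.line_ch l (m - 1)
    rw [sub_add_cancel] at this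
    rw [← this, S.T.ch_ch]

theorem line_win (hh : h ≤ S.hm) (m : ℤ) :
    (3 * (i0 - S.hm) ≤ l.ω m ∧ l.ω m ≤ 3 * (i0 + S.hm) + 2) ∧
    (3 * (i0 - S.hm) ≤ bar (l.ω (m - 1)) ∧ bar (l.ω (m - 1)) ≤ 3 * (i0 + S.hm) + 2) ∧
    3 * (i0 - S.hm) ≤ l.cp m ∧ l.cp m ≤ 3 * (i0 + S.hm) + 1 := by
  have h1 := l.rng m
  have h2 := l.rng (m - 1)
  rw [← bar_div] at h2
  rw [abs_le] at h1 h2
  have := l.alt' m
  unfold Line.cp
  omega

end

/-- Permutations of the tubes realised by ring switches in blocks `i1 ≤ i < i2`. -/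
inductive Real (i1 : ℤ) : ℤ → Perm S.D.Γ → Prop
  | refl : Real i1 i1 1
  | step {i : ℤ} {π σ : Perm S.D.Γ} : Real i1 i π → RingStep (gam S.D (3 * i + 1)) σ →
      Real i1 (i + 1) (σ * π)

variable {S}

theorem Real.trans {i1 i2 i3 : ℤ} {π π' : Perm S.D.Γ} (h : S.Real i1 i2 π)
    (h' : S.Real i2 i3 π') : S.Real i1 i3 (π' * π) := by
  induction h' with
  | refl => simpa using h
  | step _ hs ih => rw [mul_assoc]; exact ih.step hs

theorem real_one (i1 : ℤ) : ∀ i2, i1 ≤ i2 → S.Real i1 i2 1 := by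
  intro i2 h
  induction i2, h using Int.leInduction with
  | base => exact Real.refl
  | succ n _ ih => simpa using ih.step (σ := 1) ⟨∅, by simp, by simp, by simp⟩

theorem real_gen (i1 : ℤ) {i : ℤ} {σ : Perm S.D.Γ} (h : RingStep (gam S.D (3 * i + 1)) σ) :
    S.Real i1 (i1 + 8 * S.w) σ := by
  have hw : (0 : ℤ) < 8 * S.w := by have := S.w_pos; omega
  obtain ⟨i', h1, h2, h3⟩ : ∃ i', i1 ≤ i' ∧ i' < i1 + 8 * S.w ∧
      gam S.D (3 * i' + 1) = gam S.D (3 * i + 1) := by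
    refine ⟨(i - i1) % (8 * S.w) + i1, ?_, ?_, ?_⟩
    · have := Int.emod_nonneg (i - i1) hw.ne'; omega
    · have := Int.emod_lt_of_pos (i - i1) hw; omega
    · rw [← gam_add S.D (3 * i + 1) (-((i - i1) / (8 * S.w))), Int.emod_def]
      congr 1; ring
  rw [← h3] at h
  simpa using ((real_one i1 i' h1).step h).trans (real_one (i' + 1) _ (by omega))

theorem real_all (i1 : ℤ) (π : Perm S.D.Γ) : S.Real i1 (i1 + 8 * S.w * S.M) π := by
  obtain ⟨L, h1, h2, rfl⟩ := S.real π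
  have key : ∀ L : List (Perm S.D.Γ), (∀ σ ∈ L, ∃ i : ℤ, RingStep (gam S.D (3 * i + 1)) σ) →
      S.Real i1 (i1 + 8 * S.w * L.length) L.prod := by
    intro L
    induction L with
    | nil => intro _; simpa using Real.refl
    | cons a t ih =>
      intro h
      obtain ⟨i, hi⟩ := h a (by simp)
      have := (ih fun σ hσ => h σ (by simp [hσ])).trans (real_gen _ hi)
      rw [List.prod_cons, List.length_cons]
      push_cast
      rwa [mul_add, mul_one, ← add_assoc]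
  have := (key L h2).trans (real_one _ (i1 + 8 * S.w * S.M) (by
    have : (8 * S.w : ℤ) * L.length ≤ 8 * S.w * S.M :=
      mul_le_mul_of_nonneg_left h1 (by positivity)
    omega))
  simpa using this

theorem Real.extract {i1 i2 : ℤ} {π : Perm S.D.Γ} (h : S.Real i1 i2 π) :
    i1 ≤ i2 ∧ ∃ (Q : ℤ → Set S.D.Γ) (p : ℤ → Perm S.D.Γ),
      (∀ i a, a * gam S.D (3 * i + 1) ∈ Q i ↔ a ∈ Q i) ∧ p i1 = 1 ∧ p i2 = π ∧
      ∀ i, i1 ≤ i → i < i2 → ∀ a, (p i a ∈ Q i → p (i + 1) a = p i a * gam S.D (3 * i + 1)) ∧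
        (p i a ∉ Q i → p (i + 1) a = p i a) := by
  induction h with
  | refl => exact ⟨le_rfl, fun _ => ∅, fun _ => 1, by simp, rfl, rfl, fun i h1 h2 => by omega⟩
  | @step i π σ _ hs ih =>
    obtain ⟨h0, Q, p, a1, a2, a3, a4⟩ := ih
    obtain ⟨Q', b1, b2, b3⟩ := hs
    refine ⟨by omega, Function.update Q i Q', Function.update p (i + 1) (σ * π), ?_, ?_, ?_, ?_⟩
    · intro t a
      by_cases ht : t = i
      · subst ht; simpa using b1 a
      · rw [Function.update_of_ne ht]; exact a1 t a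
    · rw [Function.update_of_ne (by omega)]; exact a2
    · simp
    · intro t h1 h2 a
      rw [Function.update_of_ne (show t ≠ i + 1 by omega)]
      by_cases ht : t = i
      · subst ht
        simp only [Function.update_self, a3, Perm.mul_apply]
        exact ⟨b2 _, b3 _⟩
      · rw [Function.update_of_ne ht, Function.update_of_ne (show t + 1 ≠ i + 1 by omega)]
        exact a4 t h1 (by omega) a

end Setup

end Pool.Agent.Lib.MP_8cd3bd_co
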